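import Pool.Agent.H29.C3.Ord

/-!
# The volume form as a sum over the permutations
-/

set_option autoImplicit false
set_option maxRecDepth 100000

open scoped BigOperators

namespace C3V

/-- expansion of an alternating sum -/
theorem alt_expand (k : ℕ) (G : (Fin (k + 1) → Fin (k + 1)) → ℤ) :
    ∑ σ : Equiv.Perm (Fin (k + 1)), (Equiv.Perm.sign σ : ℤ) * G (fun i => σ i) =
    ∑ j : Fin (k + 1), (-1 : ℤ) ^ (j : ℕ) * ∑ τ : Equiv.Perm (Fin k),
      (Equiv.Perm.sign τ : ℤ) * G (Fin.cons j fun i => j.succAbove (τ i)) := by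
  classical
  let f : Fin (k + 1) × Equiv.Perm (Fin k) → Equiv.Perm (Fin (k + 1)) := fun q =>
    q.1.cycleRange.symm * Equiv.Perm.decomposeFin.symm (0, q.2)
  have hf0 : ∀ q, f q 0 = q.1 := by
    intro q
    simp only [f, Equiv.Perm.mul_apply, Equiv.Perm.decomposeFin_symm_apply_zero,
      Fin.cycleRange_symm_zero]
  have hinj : Function.Injective f := by
    rintro ⟨j, τ⟩ ⟨j', τ'⟩ h
    have h0 : j = j' := by
      have := hf0 (j, τ)
      rw [h, hf0] at this
      exact this.symm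
    subst h0
    have h1 : Equiv.Perm.decomposeFin.symm ((0 : Fin (k + 1)), τ)
        = Equiv.Perm.decomposeFin.symm ((0 : Fin (k + 1)), τ') := mul_left_cancel h
    have h2 := Equiv.Perm.decomposeFin.symm.injective h1
    rw [(Prod.mk.inj h2).2]
  have hbij : Function.Bijective f := by
    rw [Fintype.bijective_iff_injective_and_card]
    refine ⟨hinj, ?_⟩
    rw [Fintype.card_prod, Fintype.card_perm, Fintype.card_perm, Fintype.card_fin,
      Fintype.card_fin, Nat.factorial_succ]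
  rw [← hbij.sum_comp (fun σ : Equiv.Perm (Fin (k + 1)) => (Equiv.Perm.sign σ : ℤ) *
      G (fun i => σ i))]
  rw [Fintype.sum_prod_type]
  refine Finset.sum_congr rfl fun j _ => ?_
  rw [Finset.mul_sum]
  refine Finset.sum_congr rfl fun τ _ => ?_
  have h1 : Equiv.Perm.sign (f (j, τ)) = (-1) ^ (j : ℕ) * Equiv.Perm.sign τ := by
    simp only [f, Equiv.Perm.sign_mul, Equiv.Perm.decomposeFin.symm_sign, if_true, one_mul,
      Equiv.Perm.sign_symm, Fin.sign_cycleRange]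
  have h2 : ∀ i : Fin k, f (j, τ) i.succ = j.succAbove (τ i) := by
    intro i
    simp only [f, Equiv.Perm.mul_apply, Equiv.Perm.decomposeFin_symm_apply_succ, Equiv.swap_self,
      Equiv.refl_apply, Fin.cycleRange_symm_succ]
  have h3 : (fun i => f (j, τ) i) = Fin.cons j fun i => j.succAbove (τ i) := by
    funext i
    refine Fin.cases ?_ (fun i => ?_) i
    · rw [hf0, Fin.cons_zero]
    · rw [h2, Fin.cons_succ]
  rw [h1, h3]
  push_cast
  ring

theorem e6 (G : Fin 6 → Fin 6 → Fin 6 → Fin 6 → Fin 6 → Fin 6 → ℤ) :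
    ∑ σ : Equiv.Perm (Fin 6), (Equiv.Perm.sign σ : ℤ) * G (σ 0) (σ 1) (σ 2) (σ 3) (σ 4) (σ 5) =
    ∑ j : Fin 6, (-1 : ℤ) ^ (j : ℕ) * ∑ τ : Equiv.Perm (Fin 5), (Equiv.Perm.sign τ : ℤ) *
      G j (j.succAbove (τ 0)) (j.succAbove (τ 1)) (j.succAbove (τ 2)) (j.succAbove (τ 3))
        (j.succAbove (τ 4)) :=
  alt_expand 5 fun g => G (g 0) (g 1) (g 2) (g 3) (g 4) (g 5)

theorem e5 (G : Fin 5 → Fin 5 → Fin 5 → Fin 5 → Fin 5 → ℤ) :
    ∑ σ : Equiv.Perm (Fin 5), (Equiv.Perm.sign σ : ℤ) * G (σ 0) (σ 1) (σ 2) (σ 3) (σ 4) =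
    ∑ j : Fin 5, (-1 : ℤ) ^ (j : ℕ) * ∑ τ : Equiv.Perm (Fin 4), (Equiv.Perm.sign τ : ℤ) *
      G j (j.succAbove (τ 0)) (j.succAbove (τ 1)) (j.succAbove (τ 2)) (j.succAbove (τ 3)) :=
  alt_expand 4 fun g => G (g 0) (g 1) (g 2) (g 3) (g 4)

theorem e4 (G : Fin 4 → Fin 4 → Fin 4 → Fin 4 → ℤ) :
    ∑ σ : Equiv.Perm (Fin 4), (Equiv.Perm.sign σ : ℤ) * G (σ 0) (σ 1) (σ 2) (σ 3) =
    ∑ j : Fin 4, (-1 : ℤ) ^ (j : ℕ) * ∑ τ : Equiv.Perm (Fin 3), (Equiv.Perm.sign τ : ℤ) *
      G j (j.succAbove (τ 0)) (j.succAbove (τ 1)) (j.succAbove (τ 2)) :=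
  alt_expand 3 fun g => G (g 0) (g 1) (g 2) (g 3)

theorem e3 (G : Fin 3 → Fin 3 → Fin 3 → ℤ) :
    ∑ σ : Equiv.Perm (Fin 3), (Equiv.Perm.sign σ : ℤ) * G (σ 0) (σ 1) (σ 2) =
    ∑ j : Fin 3, (-1 : ℤ) ^ (j : ℕ) * ∑ τ : Equiv.Perm (Fin 2), (Equiv.Perm.sign τ : ℤ) *
      G j (j.succAbove (τ 0)) (j.succAbove (τ 1)) :=
  alt_expand 2 fun g => G (g 0) (g 1) (g 2)

theorem e2 (G : Fin 2 → Fin 2 → ℤ) :
    ∑ σ : Equiv.Perm (Fin 2), (Equiv.Perm.sign σ : ℤ) * G (σ 0) (σ 1) = G 0 1 - G 1 0 := by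
  have h := alt_expand 1 fun g => G (g 0) (g 1)
  rw [h, Fin.sum_univ_two, Fintype.sum_subsingleton _ 1, Fintype.sum_subsingleton _ 1]
  have a0 : (Fin.cons (0 : Fin 2) (fun i : Fin 1 => (0 : Fin 2).succAbove
    ((1 : Equiv.Perm (Fin 1)) i)) : Fin 2 → Fin 2) 1 = 1 := by decide
  have a1 : (Fin.cons (1 : Fin 2) (fun i : Fin 1 => (1 : Fin 2).succAbove
    ((1 : Equiv.Perm (Fin 1)) i)) : Fin 2 → Fin 2) 1 = 0 := by decide
  rw [a0, a1]
  simp
  ring

theorem s4 (P Q : Fin 4 → Fin 4 → ℤ) (hP : ∀ a b, P b a = - P a b) (hQ : ∀ a b, Q b a = - Q a b) :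
    ∑ σ : Equiv.Perm (Fin 4), (Equiv.Perm.sign σ : ℤ) * (P (σ 0) (σ 1) * Q (σ 2) (σ 3)) =
    4 * (P 0 1 * Q 2 3 - P 0 2 * Q 1 3 + P 0 3 * Q 1 2 + P 1 2 * Q 0 3 - P 1 3 * Q 0 2 +
      P 2 3 * Q 0 1) := by
  have f3_0 : (0 : Fin 4).succAbove (0 : Fin 3) = 1 := by decide
  have f3_1 : (0 : Fin 4).succAbove (1 : Fin 3) = 2 := by decide
  have f3_2 : (0 : Fin 4).succAbove (2 : Fin 3) = 3 := by decide
  have f3_3 : (1 : Fin 4).succAbove (0 : Fin 3) = 0 := by decide
  have f3_4 : (1 : Fin 4).succAbove (1 : Fin 3) = 2 := by decide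
  have f3_5 : (1 : Fin 4).succAbove (2 : Fin 3) = 3 := by decide
  have f3_6 : (2 : Fin 4).succAbove (0 : Fin 3) = 0 := by decide
  have f3_7 : (2 : Fin 4).succAbove (1 : Fin 3) = 1 := by decide
  have f3_8 : (2 : Fin 4).succAbove (2 : Fin 3) = 3 := by decide
  have f3_9 : (3 : Fin 4).succAbove (0 : Fin 3) = 0 := by decide
  have f3_10 : (3 : Fin 4).succAbove (1 : Fin 3) = 1 := by decide
  have f3_11 : (3 : Fin 4).succAbove (2 : Fin 3) = 2 := by decide
  have f2_0 : (0 : Fin 3).succAbove (0 : Fin 2) = 1 := by decide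
  have f2_1 : (0 : Fin 3).succAbove (1 : Fin 2) = 2 := by decide
  have f2_2 : (1 : Fin 3).succAbove (0 : Fin 2) = 0 := by decide
  have f2_3 : (1 : Fin 3).succAbove (1 : Fin 2) = 2 := by decide
  have f2_4 : (2 : Fin 3).succAbove (0 : Fin 2) = 0 := by decide
  have f2_5 : (2 : Fin 3).succAbove (1 : Fin 2) = 1 := by decide
  have g4 := e4 fun a b c d => P a b * Q c d
  try simp only at g4
  rw [g4]
  have g3 : ∀ j : Fin 4, ∑ τ : Equiv.Perm (Fin 3), (Equiv.Perm.sign τ : ℤ) *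
      (P j (j.succAbove (τ 0)) * Q (j.succAbove (τ 1)) (j.succAbove (τ 2))) =
      ∑ i : Fin 3, (-1 : ℤ) ^ (i : ℕ) * (P j (j.succAbove i) *
        Q (j.succAbove (i.succAbove 0)) (j.succAbove (i.succAbove 1)) -
        P j (j.succAbove i) * Q (j.succAbove (i.succAbove 1)) (j.succAbove (i.succAbove 0))) := by
    intro j
    have h := e3 fun a b c => P j (j.succAbove a) * Q (j.succAbove b) (j.succAbove c)
    try simp only at h
    rw [h]
    refine Finset.sum_congr rfl fun i _ => ?_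
    have h2 := e2 fun a b => P j (j.succAbove i) * Q (j.succAbove (i.succAbove a))
      (j.succAbove (i.succAbove b))
    try simp only at h2
    rw [h2]
  simp only [g3]
  rw [Fin.sum_univ_four]
  simp only [Fin.sum_univ_three]
  simp only [f3_0, f3_1, f3_2, f3_3, f3_4, f3_5, f3_6, f3_7, f3_8, f3_9, f3_10, f3_11, f2_0, f2_1, f2_2, f2_3, f2_4, f2_5]
  rw [hP 0 1, hP 0 2, hP 0 3, hP 1 2, hP 1 3, hP 2 3, hQ 0 1, hQ 0 2, hQ 0 3, hQ 1 2, hQ 1 3, hQ 2 3]
  simp
  ring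

/-- the linear order as a function -/
def lam {m : ℕ} (a b : Fin (m + 1)) : ℤ :=
  if a = 0 ∨ b = 0 ∨ a = b then 0 else if a < b then 1 else -1

/-- the standard cyclic order -/
def std {m : ℕ} (a b c : Fin (m + 1)) : ℤ := lam b c - lam a c + lam a b

theorem s6 (P Q : Fin 7 → Fin 7 → ℤ) (hP : ∀ a b, P b a = - P a b) (hQ : ∀ a b, Q b a = - Q a b) :
    ∑ σ : Equiv.Perm (Fin 6), (Equiv.Perm.sign σ : ℤ) * (std 0 (σ 0).succ (σ 1).succ *
      (P (σ 2).succ (σ 3).succ * Q (σ 4).succ (σ 5).succ)) =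
    8 * Dx (fun _ a b => P a b) (fun _ a b => Q a b) := by
  have g6 := e6 fun a b c d e f => std 0 a.succ b.succ * (P c.succ d.succ * Q e.succ f.succ)
  try simp only at g6
  rw [g6]
  have g5 : ∀ j : Fin 6, ∑ τ : Equiv.Perm (Fin 5), (Equiv.Perm.sign τ : ℤ) *
      (std 0 j.succ (j.succAbove (τ 0)).succ *
        (P (j.succAbove (τ 1)).succ (j.succAbove (τ 2)).succ *
          Q (j.succAbove (τ 3)).succ (j.succAbove (τ 4)).succ)) =
      ∑ i : Fin 5, (-1 : ℤ) ^ (i : ℕ) * (std 0 j.succ (j.succAbove i).succ *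
        (4 * (P (j.succAbove (i.succAbove 0)).succ (j.succAbove (i.succAbove 1)).succ *
            Q (j.succAbove (i.succAbove 2)).succ (j.succAbove (i.succAbove 3)).succ -
          P (j.succAbove (i.succAbove 0)).succ (j.succAbove (i.succAbove 2)).succ *
            Q (j.succAbove (i.succAbove 1)).succ (j.succAbove (i.succAbove 3)).succ +
          P (j.succAbove (i.succAbove 0)).succ (j.succAbove (i.succAbove 3)).succ *
            Q (j.succAbove (i.succAbove 1)).succ (j.succAbove (i.succAbove 2)).succ +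
          P (j.succAbove (i.succAbove 1)).succ (j.succAbove (i.succAbove 2)).succ *
            Q (j.succAbove (i.succAbove 0)).succ (j.succAbove (i.succAbove 3)).succ -
          P (j.succAbove (i.succAbove 1)).succ (j.succAbove (i.succAbove 3)).succ *
            Q (j.succAbove (i.succAbove 0)).succ (j.succAbove (i.succAbove 2)).succ +
          P (j.succAbove (i.succAbove 2)).succ (j.succAbove (i.succAbove 3)).succ *
            Q (j.succAbove (i.succAbove 0)).succ (j.succAbove (i.succAbove 1)).succ))) := by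
    intro j
    have h := e5 fun a b c d e => std 0 j.succ (j.succAbove a).succ *
      (P (j.succAbove b).succ (j.succAbove c).succ * Q (j.succAbove d).succ (j.succAbove e).succ)
    try simp only at h
    rw [h]
    refine Finset.sum_congr rfl fun i _ => ?_
    have h4 := s4 (fun a b => P (j.succAbove (i.succAbove a)).succ (j.succAbove (i.succAbove b)).succ)
      (fun a b => Q (j.succAbove (i.succAbove a)).succ (j.succAbove (i.succAbove b)).succ)
      (fun a b => hP _ _) (fun a b => hQ _ _)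
    try simp only at h4
    rw [← h4, Finset.mul_sum, Finset.mul_sum, Finset.mul_sum]
    exact Finset.sum_congr rfl fun τ _ => by ring
  simp only [g5]
  have f5_0 : (0 : Fin 6).succAbove (0 : Fin 5) = 1 := by decide
  have f5_1 : (0 : Fin 6).succAbove (1 : Fin 5) = 2 := by decide
  have f5_2 : (0 : Fin 6).succAbove (2 : Fin 5) = 3 := by decide
  have f5_3 : (0 : Fin 6).succAbove (3 : Fin 5) = 4 := by decide
  have f5_4 : (0 : Fin 6).succAbove (4 : Fin 5) = 5 := by decide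
  have f5_5 : (1 : Fin 6).succAbove (0 : Fin 5) = 0 := by decide
  have f5_6 : (1 : Fin 6).succAbove (1 : Fin 5) = 2 := by decide
  have f5_7 : (1 : Fin 6).succAbove (2 : Fin 5) = 3 := by decide
  have f5_8 : (1 : Fin 6).succAbove (3 : Fin 5) = 4 := by decide
  have f5_9 : (1 : Fin 6).succAbove (4 : Fin 5) = 5 := by decide
  have f5_10 : (2 : Fin 6).succAbove (0 : Fin 5) = 0 := by decide
  have f5_11 : (2 : Fin 6).succAbove (1 : Fin 5) = 1 := by decide
  have f5_12 : (2 : Fin 6).succAbove (2 : Fin 5) = 3 := by decide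
  have f5_13 : (2 : Fin 6).succAbove (3 : Fin 5) = 4 := by decide
  have f5_14 : (2 : Fin 6).succAbove (4 : Fin 5) = 5 := by decide
  have f5_15 : (3 : Fin 6).succAbove (0 : Fin 5) = 0 := by decide
  have f5_16 : (3 : Fin 6).succAbove (1 : Fin 5) = 1 := by decide
  have f5_17 : (3 : Fin 6).succAbove (2 : Fin 5) = 2 := by decide
  have f5_18 : (3 : Fin 6).succAbove (3 : Fin 5) = 4 := by decide
  have f5_19 : (3 : Fin 6).succAbove (4 : Fin 5) = 5 := by decide
  have f5_20 : (4 : Fin 6).succAbove (0 : Fin 5) = 0 := by decide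
  have f5_21 : (4 : Fin 6).succAbove (1 : Fin 5) = 1 := by decide
  have f5_22 : (4 : Fin 6).succAbove (2 : Fin 5) = 2 := by decide
  have f5_23 : (4 : Fin 6).succAbove (3 : Fin 5) = 3 := by decide
  have f5_24 : (4 : Fin 6).succAbove (4 : Fin 5) = 5 := by decide
  have f5_25 : (5 : Fin 6).succAbove (0 : Fin 5) = 0 := by decide
  have f5_26 : (5 : Fin 6).succAbove (1 : Fin 5) = 1 := by decide
  have f5_27 : (5 : Fin 6).succAbove (2 : Fin 5) = 2 := by decide
  have f5_28 : (5 : Fin 6).succAbove (3 : Fin 5) = 3 := by decide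
  have f5_29 : (5 : Fin 6).succAbove (4 : Fin 5) = 4 := by decide
  have f4_0 : (0 : Fin 5).succAbove (0 : Fin 4) = 1 := by decide
  have f4_1 : (0 : Fin 5).succAbove (1 : Fin 4) = 2 := by decide
  have f4_2 : (0 : Fin 5).succAbove (2 : Fin 4) = 3 := by decide
  have f4_3 : (0 : Fin 5).succAbove (3 : Fin 4) = 4 := by decide
  have f4_4 : (1 : Fin 5).succAbove (0 : Fin 4) = 0 := by decide
  have f4_5 : (1 : Fin 5).succAbove (1 : Fin 4) = 2 := by decide
  have f4_6 : (1 : Fin 5).succAbove (2 : Fin 4) = 3 := by decide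
  have f4_7 : (1 : Fin 5).succAbove (3 : Fin 4) = 4 := by decide
  have f4_8 : (2 : Fin 5).succAbove (0 : Fin 4) = 0 := by decide
  have f4_9 : (2 : Fin 5).succAbove (1 : Fin 4) = 1 := by decide
  have f4_10 : (2 : Fin 5).succAbove (2 : Fin 4) = 3 := by decide
  have f4_11 : (2 : Fin 5).succAbove (3 : Fin 4) = 4 := by decide
  have f4_12 : (3 : Fin 5).succAbove (0 : Fin 4) = 0 := by decide
  have f4_13 : (3 : Fin 5).succAbove (1 : Fin 4) = 1 := by decide
  have f4_14 : (3 : Fin 5).succAbove (2 : Fin 4) = 2 := by decide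
  have f4_15 : (3 : Fin 5).succAbove (3 : Fin 4) = 4 := by decide
  have f4_16 : (4 : Fin 5).succAbove (0 : Fin 4) = 0 := by decide
  have f4_17 : (4 : Fin 5).succAbove (1 : Fin 4) = 1 := by decide
  have f4_18 : (4 : Fin 5).succAbove (2 : Fin 4) = 2 := by decide
  have f4_19 : (4 : Fin 5).succAbove (3 : Fin 4) = 3 := by decide
  have u0 : (0 : Fin 6).succ = 1 := by decide
  have u1 : (1 : Fin 6).succ = 2 := by decide
  have u2 : (2 : Fin 6).succ = 3 := by decide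
  have u3 : (3 : Fin 6).succ = 4 := by decide
  have u4 : (4 : Fin 6).succ = 5 := by decide
  have u5 : (5 : Fin 6).succ = 6 := by decide
  have v0 : std (0 : Fin 7) 1 2 = 1 := by decide
  have v1 : std (0 : Fin 7) 1 3 = 1 := by decide
  have v2 : std (0 : Fin 7) 1 4 = 1 := by decide
  have v3 : std (0 : Fin 7) 1 5 = 1 := by decide
  have v4 : std (0 : Fin 7) 1 6 = 1 := by decide
  have v5 : std (0 : Fin 7) 2 1 = -1 := by decide
  have v6 : std (0 : Fin 7) 2 3 = 1 := by decide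
  have v7 : std (0 : Fin 7) 2 4 = 1 := by decide
  have v8 : std (0 : Fin 7) 2 5 = 1 := by decide
  have v9 : std (0 : Fin 7) 2 6 = 1 := by decide
  have v10 : std (0 : Fin 7) 3 1 = -1 := by decide
  have v11 : std (0 : Fin 7) 3 2 = -1 := by decide
  have v12 : std (0 : Fin 7) 3 4 = 1 := by decide
  have v13 : std (0 : Fin 7) 3 5 = 1 := by decide
  have v14 : std (0 : Fin 7) 3 6 = 1 := by decide
  have v15 : std (0 : Fin 7) 4 1 = -1 := by decide
  have v16 : std (0 : Fin 7) 4 2 = -1 := by decide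
  have v17 : std (0 : Fin 7) 4 3 = -1 := by decide
  have v18 : std (0 : Fin 7) 4 5 = 1 := by decide
  have v19 : std (0 : Fin 7) 4 6 = 1 := by decide
  have v20 : std (0 : Fin 7) 5 1 = -1 := by decide
  have v21 : std (0 : Fin 7) 5 2 = -1 := by decide
  have v22 : std (0 : Fin 7) 5 3 = -1 := by decide
  have v23 : std (0 : Fin 7) 5 4 = -1 := by decide
  have v24 : std (0 : Fin 7) 5 6 = 1 := by decide
  have v25 : std (0 : Fin 7) 6 1 = -1 := by decide
  have v26 : std (0 : Fin 7) 6 2 = -1 := by decide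
  have v27 : std (0 : Fin 7) 6 3 = -1 := by decide
  have v28 : std (0 : Fin 7) 6 4 = -1 := by decide
  have v29 : std (0 : Fin 7) 6 5 = -1 := by decide
  have w0 : ((0 : Fin 6) : ℕ) = 0 := rfl
  have w1 : ((1 : Fin 6) : ℕ) = 1 := rfl
  have w2 : ((2 : Fin 6) : ℕ) = 2 := rfl
  have w3 : ((3 : Fin 6) : ℕ) = 3 := rfl
  have w4 : ((4 : Fin 6) : ℕ) = 4 := rfl
  have w5 : ((5 : Fin 6) : ℕ) = 5 := rfl
  have x0 : ((0 : Fin 5) : ℕ) = 0 := rfl
  have x1 : ((1 : Fin 5) : ℕ) = 1 := rfl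
  have x2 : ((2 : Fin 5) : ℕ) = 2 := rfl
  have x3 : ((3 : Fin 5) : ℕ) = 3 := rfl
  have x4 : ((4 : Fin 5) : ℕ) = 4 := rfl
  rw [Fin.sum_univ_six]
  simp only [Fin.sum_univ_five]
  simp only [f5_0, f5_1, f5_2, f5_3, f5_4, f5_5, f5_6, f5_7, f5_8, f5_9, f5_10, f5_11, f5_12, f5_13, f5_14, f5_15, f5_16, f5_17, f5_18, f5_19, f5_20, f5_21, f5_22, f5_23, f5_24, f5_25, f5_26, f5_27, f5_28, f5_29,
    f4_0, f4_1, f4_2, f4_3, f4_4, f4_5, f4_6, f4_7, f4_8, f4_9, f4_10, f4_11, f4_12, f4_13, f4_14, f4_15, f4_16, f4_17, f4_18, f4_19]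
  simp only [u0, u1, u2, u3, u4, u5, w0, w1, w2, w3, w4, w5, x0, x1, x2, x3, x4]
  simp only [v0, v1, v2, v3, v4, v5, v6, v7, v8, v9, v10, v11, v12, v13, v14, v15, v16, v17, v18, v19, v20, v21, v22, v23, v24, v25, v26, v27, v28, v29]
  unfold Dx
  ring

end C3V
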