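import Pool.Agent.H29.C3.Vdef

/-!
# Codes of cyclic orders: definitions and kernel computations
-/

set_option autoImplicit false
set_option maxRecDepth 100000

namespace C3V

noncomputable section

/-- the bit `z` of `c` -/
def bb (c z : ℕ) : ℕ := Nat.mod (Nat.div c (Nat.pow 2 z)) 2

/-- `p k` for all `k < n` -/
def upto (p : ℕ → Bool) (n : ℕ) : Bool :=
  Nat.rec (motive := fun _ => Bool) true
    (fun k ih => Bool.rec (motive := fun _ => Bool) false ih (p k)) n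

/-- the number with the given digits in base `2` -/
def mkl (l : List ℕ) : ℕ :=
  List.rec (motive := fun _ => ℕ) 0 (fun b _ ih => Nat.add b (Nat.mul 2 ih)) l

/-- `p q r` are the bits of `ab`, `bc`, `ac` -/
def v3 (p q r : ℕ) : Bool := Bool.rec (motive := fun _ => Bool) true (Nat.beq p r) (Nat.beq p q)

def vld (T : List (ℕ × ℕ × ℕ)) (c : ℕ) : Bool :=
  allr (fun t => v3 (bb c t.1) (bb c t.2.1) (bb c t.2.2)) T

def T6 : List (ℕ × ℕ × ℕ) := [(0,2,1),(0,4,3),(0,7,6),(1,5,3),(1,8,6),(3,9,6),(2,5,4),(2,8,7),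
  (4,9,7),(5,9,8)]

def T7 : List (ℕ × ℕ × ℕ) := [(0,11,10),(1,12,10),(3,13,10),(6,14,10),(2,12,11),(4,13,11),
  (7,14,11),(5,13,12),(8,14,12),(9,14,13)]

/-- the index of a code -/
def idx (u : ℕ) : ℕ := Nat.mod (Nat.shiftRight IDX (Nat.mul 8 u)) 256

def rt (i : ℕ) : ℕ := nth 0 ROT i

/-- `p`, `q`, `r` are the bits of `1 a`, `1 b`, `a b`; the orientation of `1, a, b` -/
def pick (p q r : ℕ) : ℕ := Bool.rec (motive := fun _ => ℕ) p r (Nat.beq p q)

def p3 (c : ℕ) (x y z : ℕ) : ℕ := pick (bb c x) (bb c y) (bb c z)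

def rotc (c : ℕ) : ℕ := mkl [p3 c 0 1 2, p3 c 0 3 4, p3 c 1 3 5, p3 c 0 6 7, p3 c 1 6 8, p3 c 3 6 9,
  bb c 0, bb c 1, bb c 3, bb c 6]

def fc0 (c : ℕ) : ℕ := mkl [p3 c 0 1 2, p3 c 0 3 4, p3 c 1 3 5, p3 c 0 6 7, p3 c 1 6 8, p3 c 3 6 9,
  p3 c 0 10 11, p3 c 1 10 12, p3 c 3 10 13, p3 c 6 10 14]

def fc1 (c : ℕ) : ℕ := mkl [bb c 2, bb c 4, bb c 5, bb c 7, bb c 8, bb c 9, bb c 11, bb c 12,
  bb c 13, bb c 14]

def fc2 (c : ℕ) : ℕ := mkl [bb c 1, bb c 3, bb c 5, bb c 6, bb c 8, bb c 9, bb c 10, bb c 12,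
  bb c 13, bb c 14]

def fc3 (c : ℕ) : ℕ := mkl [bb c 0, bb c 3, bb c 4, bb c 6, bb c 7, bb c 9, bb c 10, bb c 11,
  bb c 13, bb c 14]

def fc4 (c : ℕ) : ℕ := mkl [bb c 0, bb c 1, bb c 2, bb c 6, bb c 7, bb c 8, bb c 10, bb c 11,
  bb c 12, bb c 14]

def fc5 (c : ℕ) : ℕ := mkl [bb c 0, bb c 1, bb c 2, bb c 3, bb c 4, bb c 5, bb c 10, bb c 11,
  bb c 12, bb c 13]

def fc6 (c : ℕ) : ℕ := mkl [bb c 0, bb c 1, bb c 2, bb c 3, bb c 4, bb c 5, bb c 6, bb c 7,
  bb c 8, bb c 9]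

/-- the contribution of a list of pairs with signs -/
def nval (c : ℕ) (L : List (ℕ × Bool)) : ℕ :=
  List.rec (motive := fun _ => ℕ) 0 (fun e _ ih =>
    Nat.add (Bool.rec (motive := fun _ => ℕ) (Nat.sub 1 (bb c e.1)) (bb c e.1) e.2) ih) L

def nvals (c : ℕ) (K : List (List (ℕ × Bool))) : List ℕ :=
  List.rec (motive := fun _ => List ℕ) [] (fun L _ ih => nval c L :: ih) K

def leq (l : List ℕ) : List ℕ → Bool :=
  List.rec (motive := fun _ => List ℕ → Bool)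
    (fun m => List.rec (motive := fun _ => Bool) true (fun _ _ _ => false) m)
    (fun a _ ih m => List.rec (motive := fun _ => Bool) false
      (fun b t _ => Bool.rec (motive := fun _ => Bool) false (ih t) (Nat.beq a b)) m) l

def rchk (y : Rec) : Bool :=
  Bool.and (leq y.n (nvals y.c KL)) (Bool.and (Nat.beq y.f0 (idx (fc0 y.c)))
    (Bool.and (Nat.beq y.f1 (idx (fc1 y.c))) (Bool.and (Nat.beq y.f2 (idx (fc2 y.c)))
      (Bool.and (Nat.beq y.f3 (idx (fc3 y.c))) (Bool.and (Nat.beq y.f4 (idx (fc4 y.c)))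
        (Bool.and (Nat.beq y.f5 (idx (fc5 y.c))) (Nat.beq y.f6 (idx (fc6 y.c)))))))))

/-- the set of codes, as a number -/
def msk (l : List Rec) : ℕ :=
  List.rec (motive := fun _ => ℕ) 0 (fun y _ ih => Nat.lor (Nat.pow 2 y.c) ih) l

def MSK : ℕ := msk Y

/-- the row as a number -/
def rA (T : List (ℕ × ℕ × ℕ)) : ℕ :=
  List.rec (motive := fun _ => ℕ) 0 (fun e _ ih => Nat.add (Nat.mul e.2.1 (Nat.pow 2 (Nat.mul 16 e.1))) ih) T

/-- the rotated row as a number -/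
def rB (T : List (ℕ × ℕ × ℕ)) : ℕ :=
  List.rec (motive := fun _ => ℕ) 0
    (fun e _ ih => Nat.add (Nat.mul e.2.2 (Nat.pow 2 (Nat.mul 16 (rt e.1)))) ih) T

/-- the row with the exchanged parts -/
def swp (T : List (ℕ × ℕ × ℕ)) : List (ℕ × ℕ × ℕ) :=
  List.rec (motive := fun _ => List (ℕ × ℕ × ℕ)) [] (fun e _ ih => (e.1, e.2.2, e.2.1) :: ih) T

end

theorem rec_all : allr rchk Y = true := by decide +kernel

theorem code6_all : upto (fun u => Bool.rec (motive := fun _ => Bool) true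
    (Bool.and (Nat.ble (idx u + 1) 120) (Nat.beq (idx (rotc u)) (rt (idx u)))) (vld T6 u))
    1024 = true := by decide +kernel

theorem code7_all : upto (fun u => Bool.rec (motive := fun _ => Bool) true
    (upto (fun v => Bool.rec (motive := fun _ => Bool) true
      (Nat.beq (bb MSK (u + 1024 * v)) 1) (vld T7 (u + 1024 * v))) 32) (vld T6 u))
    1024 = true := by decide +kernel

theorem rot_all : upto (fun i => Bool.and (Nat.beq (rA (row (rt i))) (rB (row i)))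
    (Bool.and (Nat.ble (rt i + 1) 120) (Nat.beq (rt (rt (rt (rt (rt (rt i)))))) i))) 120 = true := by
  decide +kernel

theorem rot_all' : upto (fun i => Nat.beq (rA (swp (row (rt i)))) (rB (swp (row i)))) 120 = true := by
  decide +kernel

end C3V
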