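import Pool.Agent.H29.C3.Vdef

/-!
# The kernel computations
-/

set_option autoImplicit false
set_option maxRecDepth 100000

namespace C3V

theorem chk_all : allr chk Y = true := by decide +kernel

theorem uchk0 : uchk Rec.f0 0 = true := by decide +kernel

theorem uchk1 : uchk Rec.f1 1 = true := by decide +kernel

theorem uchk2 : uchk Rec.f2 2 = true := by decide +kernel

theorem uchk3 : uchk Rec.f3 3 = true := by decide +kernel

theorem uchk4 : uchk Rec.f4 4 = true := by decide +kernel

theorem uchk5 : uchk Rec.f5 5 = true := by decide +kernel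

theorem uchk6 : uchk Rec.f6 6 = true := by decide +kernel

theorem Y_length : Y.length = 720 := by decide +kernel

/-- simple bounds for the records -/
noncomputable def bnd (y : Rec) : Bool :=
  Nat.ble (y.f0 + 1) 120 && Nat.ble (y.f1 + 1) 120 && Nat.ble (y.f2 + 1) 120 &&
  Nat.ble (y.f3 + 1) 120 && Nat.ble (y.f4 + 1) 120 && Nat.ble (y.f5 + 1) 120 &&
  Nat.ble (y.f6 + 1) 120 && Nat.ble (sm y.n) 90

theorem bnd_all : allr bnd Y = true := by decide +kernel

/-- simple bounds for the rows -/
noncomputable def rbnd (T : List (ℕ × ℕ × ℕ)) : Bool :=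
  allr (fun e => Nat.ble (e.1 + 1) 120) T && Nat.ble (sm (T.map fun e => e.2.1)) 504 &&
    Nat.ble (sm (T.map fun e => e.2.2)) 504

theorem rbnd_all : allr (fun TT => allr rbnd TT) TB = true := by decide +kernel

end C3V
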