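import Pool.Agent.H29.C3.Vec
import Pool.Agent.H29.C3.Chk

/-!
# From the packed computation to the inequalities for all pairs of orders
-/

set_option autoImplicit false
set_option maxRecDepth 100000

namespace C3V

theorem allr_mem {α : Type} {p : α → Bool} {l : List α} (h : allr p l = true) :
    ∀ x ∈ l, p x = true := by
  induction l with
  | nil => intro x hx; simp at hx
  | cons y l ih =>
    have h1 : (Bool.rec (motive := fun _ => Bool) false (allr p l) (p y)) = true := h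
    cases hp : p y with
    | false => rw [hp] at h1; exact Bool.noConfusion h1
    | true =>
      rw [hp] at h1
      intro x hx
      rcases List.mem_cons.1 hx with rfl | hx
      · exact hp
      · exact ih h1 x hx

theorem nth_mem {α : Type} (d : α) (l : List α) (i : ℕ) : nth d l i = d ∨ nth d l i ∈ l := by
  induction l generalizing i with
  | nil => exact Or.inl rfl
  | cons y l ih =>
    cases i with
    | zero => exact Or.inr (List.mem_cons_self ..)
    | succ i =>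
      have h1 : nth d (y :: l) (i + 1) = nth d l i := rfl
      rw [h1]
      rcases ih i with h | h
      · exact Or.inl h
      · exact Or.inr (List.mem_cons_of_mem _ h)

/-- the sum of the first parts of the entries for `j` -/
def sA : List (ℕ × ℕ × ℕ) → ℕ → ℕ
  | [], _ => 0
  | e :: T, j => e.2.1 * (if j = e.1 then 1 else 0) + sA T j

/-- the sum of the second parts of the entries for `j` -/
def sB : List (ℕ × ℕ × ℕ) → ℕ → ℕ
  | [], _ => 0
  | e :: T, j => e.2.2 * (if j = e.1 then 1 else 0) + sB T j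

theorem sm_cons (a : ℕ) (l : List ℕ) : sm (a :: l) = a + sm l := rfl

theorem sA_le (T : List (ℕ × ℕ × ℕ)) (j : ℕ) : sA T j ≤ sm (T.map fun e => e.2.1) := by
  induction T with
  | nil => exact Nat.le_refl _
  | cons e T ih =>
    show e.2.1 * (if j = e.1 then 1 else 0) + sA T j ≤ sm ((e :: T).map fun e => e.2.1)
    rw [List.map_cons, sm_cons]
    split_ifs <;> omega

theorem sB_le (T : List (ℕ × ℕ × ℕ)) (j : ℕ) : sB T j ≤ sm (T.map fun e => e.2.2) := by
  induction T with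
  | nil => exact Nat.le_refl _
  | cons e T ih =>
    show e.2.2 * (if j = e.1 then 1 else 0) + sB T j ≤ sm ((e :: T).map fun e => e.2.2)
    rw [List.map_cons, sm_cons]
    split_ifs <;> omega

theorem row_bnd (j : ℕ) : (∀ e ∈ row j, e.1 < 120) ∧ (∀ k, sA (row j) k ≤ 504) ∧
    ∀ k, sB (row j) k ≤ 504 := by
  have key : rbnd (row j) = true := by
    unfold row
    rcases nth_mem [] (nth [] TB (Nat.div j 11)) (Nat.mod j 11) with h | h
    · rw [h]; decide
    · rcases nth_mem [] TB (Nat.div j 11) with h' | h'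
      · rw [h'] at h; simp at h
      · exact allr_mem (allr_mem rbnd_all _ h') _ h
  unfold rbnd at key
  rw [Bool.and_eq_true, Bool.and_eq_true] at key
  obtain ⟨⟨h1, h2⟩, h3⟩ := key
  have h2' := Nat.le_of_ble_eq_true h2
  have h3' := Nat.le_of_ble_eq_true h3
  refine ⟨fun e he => Nat.le_of_ble_eq_true (allr_mem h1 e he), fun k => ?_, fun k => ?_⟩
  · exact (sA_le _ k).trans h2'
  · exact (sB_le _ k).trans h3'

theorem bnd_mem {y : Rec} (hy : y ∈ Y) : y.f0 < 120 ∧ y.f1 < 120 ∧ y.f2 < 120 ∧ y.f3 < 120 ∧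
    y.f4 < 120 ∧ y.f5 < 120 ∧ y.f6 < 120 ∧ sm y.n ≤ 90 := by
  have h := allr_mem bnd_all y hy
  unfold bnd at h
  simp only [Bool.and_eq_true] at h
  obtain ⟨⟨⟨⟨⟨⟨⟨h0, h1⟩, h2⟩, h3⟩, h4⟩, h5⟩, h6⟩, h7⟩ := h
  exact ⟨Nat.le_of_ble_eq_true h0, Nat.le_of_ble_eq_true h1, Nat.le_of_ble_eq_true h2,
    Nat.le_of_ble_eq_true h3, Nat.le_of_ble_eq_true h4, Nat.le_of_ble_eq_true h5,
    Nat.le_of_ble_eq_true h6, Nat.le_of_ble_eq_true h7⟩

theorem W_eq (g : Rec → ℕ) (i : ℕ) (hc : uchk g i = true) (hg : ∀ y ∈ Y, g y < 120) {j : ℕ}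
    (hj : j < 120) : W i j = pk (fun y => if g y = j then 1 else 0) Y := by
  have h1 := allr_mem hc j (List.mem_range.2 hj)
  have h2 : Nat.mod (Nat.shiftRight (U g Y) (Nat.mul 11520 j)) MM = W i j := Nat.eq_of_beq_eq_true h1
  have hw : ∀ k, pk (fun y => if g y = k then 1 else 0) Y < 2 ^ 11520 := by
    intro k
    have h3 := pk_lt (fun y => if g y = k then 1 else 0) Y (fun y _ => by
      show (if g y = k then 1 else 0) < 65536
      split_ifs <;> omega)
    rw [Y_length] at h3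
    have e1 : (65536 : ℕ) ^ 720 = 2 ^ 11520 := by
      have e2 : (65536 : ℕ) = 2 ^ 16 := by norm_num
      rw [e2, ← pow_mul]
    rw [← e1]
    exact h3
  have h4 := dig (fun k => pk (fun y => if g y = k then 1 else 0) Y) 11520 hw 120 j hj
  rw [← Ug_eq 11520 120 g Y hg, ← U_eq_Ug] at h4
  rw [← h2, ← h4]
  rfl

theorem PA_eq (g : Rec → ℕ) (i : ℕ) (hc : uchk g i = true) (hg : ∀ y ∈ Y, g y < 120) (j : ℕ) :
    PA i j = pk (fun y => sA (row j) (g y)) Y := by
  have key : ∀ T : List (ℕ × ℕ × ℕ), (∀ e ∈ T, e.1 < 120) →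
      List.rec (motive := fun _ => ℕ) 0 (fun e _ ih => Prod.rec (motive := fun _ => ℕ) (fun j' ab =>
        Prod.rec (motive := fun _ => ℕ) (fun a _ => Nat.add (Nat.mul a (W i j')) ih) ab) e) T
      = pk (fun y => sA T (g y)) Y := by
    intro T hT
    induction T with
    | nil =>
      have : pk (fun y => sA [] (g y)) Y = 0 * pk (fun _ => 1) Y := by
        rw [← pk_const]; rfl
      rw [this, zero_mul]
    | cons e T ih =>
      have ih' := ih fun e he => hT e (List.mem_cons_of_mem _ he)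
      have h1 := W_eq g i hc hg (hT e (List.mem_cons_self ..))
      have h2 : pk (fun y => sA (e :: T) (g y)) Y
          = e.2.1 * W i e.1 + pk (fun y => sA T (g y)) Y := by
        rw [h1, ← pk_mul, ← pk_add]
        rfl
      rw [h2, ← ih']
      rfl
  exact key (row j) (row_bnd j).1

theorem PB_eq (g : Rec → ℕ) (i : ℕ) (hc : uchk g i = true) (hg : ∀ y ∈ Y, g y < 120) (j : ℕ) :
    PB i j = pk (fun y => sB (row j) (g y)) Y := by
  have key : ∀ T : List (ℕ × ℕ × ℕ), (∀ e ∈ T, e.1 < 120) →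
      List.rec (motive := fun _ => ℕ) 0 (fun e _ ih => Prod.rec (motive := fun _ => ℕ) (fun j' ab =>
        Prod.rec (motive := fun _ => ℕ) (fun _ b => Nat.add (Nat.mul b (W i j')) ih) ab) e) T
      = pk (fun y => sB T (g y)) Y := by
    intro T hT
    induction T with
    | nil =>
      have : pk (fun y => sB [] (g y)) Y = 0 * pk (fun _ => 1) Y := by
        rw [← pk_const]; rfl
      rw [this, zero_mul]
    | cons e T ih =>
      have ih' := ih fun e he => hT e (List.mem_cons_of_mem _ he)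
      have h1 := W_eq g i hc hg (hT e (List.mem_cons_self ..))
      have h2 : pk (fun y => sB (e :: T) (g y)) Y
          = e.2.2 * W i e.1 + pk (fun y => sB T (g y)) Y := by
        rw [h1, ← pk_mul, ← pk_add]
        rfl
      rw [h2, ← ih']
      rfl
  exact key (row j) (row_bnd j).1

/-- the bits of the code -/
noncomputable def bl (y : Rec) : List ℕ := [bz 0 y, bz 1 y, bz 2 y, bz 3 y, bz 4 y, bz 5 y, bz 6 y, bz 7 y, bz 8 y,
  bz 9 y, bz 10 y, bz 11 y, bz 12 y, bz 13 y, bz 14 y]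

theorem dot_pk (F : List (Rec → ℕ)) (n : List ℕ) (l : List Rec) :
    pk (fun y => dot n (F.map fun f => f y)) l = dot n (F.map fun f => pk f l) := by
  induction n generalizing F with
  | nil =>
    have : pk (fun y => dot [] (F.map fun f => f y)) l = 0 * pk (fun _ => 1) l := by
      rw [← pk_const]; rfl
    rw [this, zero_mul]; rfl
  | cons a n ih =>
    cases F with
    | nil =>
      have : pk (fun y => dot (a :: n) (([] : List (Rec → ℕ)).map fun f => f y)) l
          = 0 * pk (fun _ => 1) l := by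
        rw [← pk_const]; rfl
      rw [this, zero_mul]; rfl
    | cons f F =>
      have h1 : pk (fun y => dot (a :: n) ((f :: F).map fun f => f y)) l
          = pk (fun y => a * f y + dot n (F.map fun f => f y)) l := rfl
      rw [h1, pk_add, pk_mul, ih]
      rfl

theorem sm_pk (F : List (Rec → ℕ)) (l : List Rec) :
    pk (fun y => sm (F.map fun f => f y)) l = sm (F.map fun f => pk f l) := by
  induction F with
  | nil =>
    have : pk (fun y => sm (([] : List (Rec → ℕ)).map fun f => f y)) l = 0 * pk (fun _ => 1) l := by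
      rw [← pk_const]; rfl
    rw [this, zero_mul]; rfl
  | cons f F ih =>
    have h1 : pk (fun y => sm ((f :: F).map fun f => f y)) l
        = pk (fun y => f y + sm (F.map fun f => f y)) l := rfl
    rw [h1, pk_add, ih]
    rfl

noncomputable def LL (x y : Rec) : ℕ := 84 * dot x.n (bl y) + (sA (row x.f0) y.f0 + (sB (row x.f1) y.f1 +
  (sA (row x.f2) y.f2 + (sB (row x.f3) y.f3 + (sA (row x.f4) y.f4 + (sB (row x.f5) y.f5 +
    (sA (row x.f6) y.f6 + 2000)))))))

noncomputable def RR (x y : Rec) : ℕ := 252 * sm (bl y) + (sB (row x.f0) y.f0 + (sA (row x.f1) y.f1 +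
  (sB (row x.f2) y.f2 + (sA (row x.f3) y.f3 + (sB (row x.f4) y.f4 + (sA (row x.f5) y.f5 +
    (sB (row x.f6) y.f6 + (42 * sm x.n + 432))))))))

theorem pL_eq (x : Rec) : pL x = pk (LL x) Y := by
  have hf0 : ∀ y ∈ Y, Rec.f0 y < 120 := fun y hy => (bnd_mem hy).1
  have hf1 : ∀ y ∈ Y, Rec.f1 y < 120 := fun y hy => (bnd_mem hy).2.1
  have hf2 : ∀ y ∈ Y, Rec.f2 y < 120 := fun y hy => (bnd_mem hy).2.2.1
  have hf3 : ∀ y ∈ Y, Rec.f3 y < 120 := fun y hy => (bnd_mem hy).2.2.2.1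
  have hf4 : ∀ y ∈ Y, Rec.f4 y < 120 := fun y hy => (bnd_mem hy).2.2.2.2.1
  have hf5 : ∀ y ∈ Y, Rec.f5 y < 120 := fun y hy => (bnd_mem hy).2.2.2.2.2.1
  have hf6 : ∀ y ∈ Y, Rec.f6 y < 120 := fun y hy => (bnd_mem hy).2.2.2.2.2.2.1
  have hd : dot x.n ZL = pk (fun y => dot x.n (bl y)) Y :=
    (dot_pk [bz 0, bz 1, bz 2, bz 3, bz 4, bz 5, bz 6, bz 7, bz 8, bz 9, bz 10, bz 11, bz 12,
      bz 13, bz 14] x.n Y).symm
  have h1 : pL x = 84 * dot x.n ZL + (PA 0 x.f0 + (PB 1 x.f1 + (PA 2 x.f2 + (PB 3 x.f3 +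
      (PA 4 x.f4 + (PB 5 x.f5 + (PA 6 x.f6 + 2000 * O))))))) := rfl
  rw [h1, hd, PA_eq Rec.f0 0 uchk0 hf0, PB_eq Rec.f1 1 uchk1 hf1, PA_eq Rec.f2 2 uchk2 hf2,
    PB_eq Rec.f3 3 uchk3 hf3, PA_eq Rec.f4 4 uchk4 hf4, PB_eq Rec.f5 5 uchk5 hf5,
    PA_eq Rec.f6 6 uchk6 hf6]
  show _ + (_ + (_ + (_ + (_ + (_ + (_ + (_ + 2000 * pk (fun _ => 1) Y))))))) = _
  rw [← pk_const 2000, ← pk_mul 84, ← pk_add, ← pk_add, ← pk_add, ← pk_add, ← pk_add, ← pk_add,
    ← pk_add, ← pk_add]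
  rfl

theorem pR_eq (x : Rec) : pR x = pk (RR x) Y := by
  have hf0 : ∀ y ∈ Y, Rec.f0 y < 120 := fun y hy => (bnd_mem hy).1
  have hf1 : ∀ y ∈ Y, Rec.f1 y < 120 := fun y hy => (bnd_mem hy).2.1
  have hf2 : ∀ y ∈ Y, Rec.f2 y < 120 := fun y hy => (bnd_mem hy).2.2.1
  have hf3 : ∀ y ∈ Y, Rec.f3 y < 120 := fun y hy => (bnd_mem hy).2.2.2.1
  have hf4 : ∀ y ∈ Y, Rec.f4 y < 120 := fun y hy => (bnd_mem hy).2.2.2.2.1
  have hf5 : ∀ y ∈ Y, Rec.f5 y < 120 := fun y hy => (bnd_mem hy).2.2.2.2.2.1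
  have hf6 : ∀ y ∈ Y, Rec.f6 y < 120 := fun y hy => (bnd_mem hy).2.2.2.2.2.2.1
  have hd : POP = pk (fun y => sm (bl y)) Y :=
    (sm_pk [bz 0, bz 1, bz 2, bz 3, bz 4, bz 5, bz 6, bz 7, bz 8, bz 9, bz 10, bz 11, bz 12,
      bz 13, bz 14] Y).symm
  have h1 : pR x = 252 * POP + (PB 0 x.f0 + (PA 1 x.f1 + (PB 2 x.f2 + (PA 3 x.f3 +
      (PB 4 x.f4 + (PA 5 x.f5 + (PB 6 x.f6 + (42 * sm x.n + 432) * O))))))) := rfl
  rw [h1, hd, PB_eq Rec.f0 0 uchk0 hf0, PA_eq Rec.f1 1 uchk1 hf1, PB_eq Rec.f2 2 uchk2 hf2,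
    PA_eq Rec.f3 3 uchk3 hf3, PB_eq Rec.f4 4 uchk4 hf4, PA_eq Rec.f5 5 uchk5 hf5,
    PB_eq Rec.f6 6 uchk6 hf6]
  show _ + (_ + (_ + (_ + (_ + (_ + (_ + (_ + (42 * sm x.n + 432) * pk (fun _ => 1) Y))))))) = _
  rw [← pk_const (42 * sm x.n + 432), ← pk_mul 252, ← pk_add, ← pk_add, ← pk_add, ← pk_add,
    ← pk_add, ← pk_add, ← pk_add, ← pk_add]
  rfl

theorem bz_le (z : ℕ) (y : Rec) : bz z y ≤ 1 := by
  have : (y.c / 2 ^ z) % 2 < 2 := Nat.mod_lt _ (by norm_num)
  show (y.c / 2 ^ z) % 2 ≤ 1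
  omega

theorem dot_le (n m : List ℕ) (hm : ∀ b ∈ m, b ≤ 1) : dot n m ≤ sm n := by
  induction n generalizing m with
  | nil => exact Nat.le_refl _
  | cons a n ih =>
    cases m with
    | nil => exact Nat.zero_le _
    | cons b m =>
      have h1 : dot (a :: n) (b :: m) = a * b + dot n m := rfl
      rw [h1, sm_cons]
      have h2 := ih m fun c hc => hm c (List.mem_cons_of_mem _ hc)
      have h3 := hm b (List.mem_cons_self ..)
      nlinarith

theorem bl_le (y : Rec) : ∀ b ∈ bl y, b ≤ 1 := by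
  intro b hb
  unfold bl at hb
  simp only [List.mem_cons, List.not_mem_nil, or_false] at hb
  rcases hb with rfl | rfl | rfl | rfl | rfl | rfl | rfl | rfl | rfl | rfl | rfl | rfl | rfl | rfl | rfl <;>
    exact bz_le _ _

theorem sm_bl_le (y : Rec) : sm (bl y) ≤ 15 := by
  have h : ∀ l : List ℕ, (∀ b ∈ l, b ≤ 1) → sm l ≤ l.length := by
    intro l hl
    induction l with
    | nil => exact Nat.le_refl _
    | cons a l ih =>
      rw [sm_cons, List.length_cons]
      have := hl a (List.mem_cons_self ..)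
      have := ih fun c hc => hl c (List.mem_cons_of_mem _ hc)
      omega
  exact h _ (bl_le y)

theorem LL_le {x y : Rec} (hx : x ∈ Y) : LL x y ≤ 13088 := by
  have h0 := (bnd_mem hx).2.2.2.2.2.2.2
  have h1 := dot_le x.n (bl y) (bl_le y)
  have a0 := (row_bnd x.f0).2.1 y.f0
  have a1 := (row_bnd x.f1).2.2 y.f1
  have a2 := (row_bnd x.f2).2.1 y.f2
  have a3 := (row_bnd x.f3).2.2 y.f3
  have a4 := (row_bnd x.f4).2.1 y.f4
  have a5 := (row_bnd x.f5).2.2 y.f5
  have a6 := (row_bnd x.f6).2.1 y.f6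
  unfold LL
  omega

theorem RR_le {x y : Rec} (hx : x ∈ Y) : RR x y ≤ 11520 := by
  have h0 := (bnd_mem hx).2.2.2.2.2.2.2
  have h1 := sm_bl_le y
  have a0 := (row_bnd x.f0).2.2 y.f0
  have a1 := (row_bnd x.f1).2.1 y.f1
  have a2 := (row_bnd x.f2).2.2 y.f2
  have a3 := (row_bnd x.f3).2.1 y.f3
  have a4 := (row_bnd x.f4).2.2 y.f4
  have a5 := (row_bnd x.f5).2.1 y.f5
  have a6 := (row_bnd x.f6).2.2 y.f6
  unfold RR
  omega

/-- **The inequality for all pairs of orders.** -/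
theorem pair_bound {x y : Rec} (hx : x ∈ Y) (hy : y ∈ Y) : LL x y ≤ RR x y ∧ RR x y ≤ LL x y + 644 := by
  have h := allr_mem chk_all x hx
  unfold chk at h
  rw [Bool.and_eq_true] at h
  obtain ⟨h1, h2⟩ := h
  have h1' : Nat.land (pR x + 32768 * pk (fun _ => 1) Y - pL x) (32768 * pk (fun _ => 1) Y)
    = 32768 * pk (fun _ => 1) Y := Nat.eq_of_beq_eq_true h1
  have h2' : Nat.land (pL x + 644 * pk (fun _ => 1) Y + 32768 * pk (fun _ => 1) Y - pR x)
    (32768 * pk (fun _ => 1) Y) = 32768 * pk (fun _ => 1) Y := Nat.eq_of_beq_eq_true h2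
  rw [pL_eq, pR_eq] at h1' h2'
  rw [← pk_const 644, ← pk_add] at h2'
  constructor
  · exact le_of_land (fun y _ => (LL_le hx).trans (by norm_num))
      (fun y _ => lt_of_le_of_lt (RR_le hx) (by norm_num)) h1' y hy
  · exact le_of_land (f := RR x) (g := fun y => LL x y + 644)
      (fun y _ => (RR_le hx).trans (by norm_num))
      (fun y _ => by have := LL_le (y := y) hx; show LL x y + 644 < 32768; omega) h2' y hy

end C3V
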