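import Pool.Agent.H29.C3.Cdef
import Pool.Agent.H29.C3.Sum

/-!
# Codes of cyclic orders: the link
-/

set_option autoImplicit false
set_option maxRecDepth 100000

namespace C3V

theorem upto_lt {p : ℕ → Bool} {n : ℕ} (h : upto p n = true) : ∀ k < n, p k = true := by
  induction n with
  | zero => intro k hk; omega
  | succ n ih =>
    have h1 : (Bool.rec (motive := fun _ => Bool) false (upto p n) (p n)) = true := h
    cases hp : p n with
    | false => rw [hp] at h1; exact Bool.noConfusion h1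
    | true =>
      rw [hp] at h1
      intro k hk
      rcases Nat.lt_succ_iff_lt_or_eq.1 hk with hk | rfl
      · exact ih h1 k hk
      · exact hp

theorem allr_of {α : Type} {p : α → Bool} {l : List α} (h : ∀ x ∈ l, p x = true) :
    allr p l = true := by
  induction l with
  | nil => rfl
  | cons y l ih =>
    show (Bool.rec (motive := fun _ => Bool) false (allr p l) (p y)) = true
    rw [h y (List.mem_cons_self ..)]
    exact ih fun x hx => h x (List.mem_cons_of_mem _ hx)

theorem imp_of {p q : Bool} (h : Bool.rec (motive := fun _ => Bool) true q p = true)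
    (hp : p = true) : q = true := by
  subst hp
  exact h

theorem mkl_cons (b : ℕ) (l : List ℕ) : mkl (b :: l) = b + 2 * mkl l := rfl

theorem mkl_lt (l : List ℕ) (h : ∀ b ∈ l, b ≤ 1) : mkl l < 2 ^ l.length := by
  induction l with
  | nil => exact Nat.one_pos
  | cons b l ih =>
    rw [mkl_cons, List.length_cons, pow_succ]
    have h1 := h b (List.mem_cons_self ..)
    have h2 := ih fun c hc => h c (List.mem_cons_of_mem _ hc)
    omega

theorem bb_eq (c z : ℕ) : bb c z = c / 2 ^ z % 2 := rfl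

theorem bb_le (c z : ℕ) : bb c z ≤ 1 := by
  rw [bb_eq]
  omega

theorem bb_mkl (l : List ℕ) (h : ∀ b ∈ l, b ≤ 1) (z : ℕ) : bb (mkl l) z = l.getD z 0 := by
  induction l generalizing z with
  | nil =>
    show 0 / 2 ^ z % 2 = _
    simp
  | cons b l ih =>
    have h1 := h b (List.mem_cons_self ..)
    have h2 := ih fun c hc => h c (List.mem_cons_of_mem _ hc)
    rw [mkl_cons]
    cases z with
    | zero =>
      rw [bb_eq]
      show (b + 2 * mkl l) / 1 % 2 = b
      omega
    | succ z =>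
      rw [bb_eq, pow_succ, mul_comm (2 ^ z) 2, ← Nat.div_div_eq_div_mul]
      have h3 : (b + 2 * mkl l) / 2 = mkl l := by omega
      rw [h3]
      exact h2 z

theorem bb_add (l m : List ℕ) : mkl (l ++ m) = mkl l + 2 ^ l.length * mkl m := by
  induction l with
  | nil =>
    show mkl m = 0 + 1 * mkl m
    omega
  | cons b l ih =>
    rw [List.cons_append, mkl_cons, mkl_cons, ih, List.length_cons, pow_succ]
    ring

theorem leq_eq {l m : List ℕ} (h : leq l m = true) : l = m := by
  induction l generalizing m with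
  | nil =>
    cases m with
    | nil => rfl
    | cons a m => exact Bool.noConfusion h
  | cons a l ih =>
    cases m with
    | nil => exact Bool.noConfusion h
    | cons b m =>
      have h1 : Bool.rec (motive := fun _ => Bool) false (leq l m) (Nat.beq a b) = true := h
      cases hp : Nat.beq a b with
      | false => rw [hp] at h1; exact Bool.noConfusion h1
      | true =>
        rw [hp] at h1
        rw [Nat.eq_of_beq_eq_true hp, ih h1]

theorem msk_mem {l : List Rec} {w : ℕ} (h : bb (msk l) w = 1) : ∃ y ∈ l, y.c = w := by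
  have hb : ∀ m : ℕ, bb m w = 1 ↔ m.testBit w = true := by
    intro m
    rw [Nat.testBit_eq_decide_div_mod_eq, decide_eq_true_iff]
    rfl
  rw [hb] at h
  induction l with
  | nil => simp [msk] at h
  | cons y l ih =>
    have h1 : msk (y :: l) = 2 ^ y.c ||| msk l := rfl
    rw [h1, Nat.testBit_or, Bool.or_eq_true] at h
    rcases h with h | h
    · refine ⟨y, List.mem_cons_self .., ?_⟩
      rw [Nat.testBit_two_pow] at h
      exact of_decide_eq_true h
    · obtain ⟨z, hz, hzw⟩ := ih h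
      exact ⟨z, List.mem_cons_of_mem _ hz, hzw⟩

theorem rec_ok {y : Rec} (hy : y ∈ Y) : y.n = nvals y.c KL ∧ y.f0 = idx (fc0 y.c) ∧
    y.f1 = idx (fc1 y.c) ∧ y.f2 = idx (fc2 y.c) ∧ y.f3 = idx (fc3 y.c) ∧ y.f4 = idx (fc4 y.c) ∧
    y.f5 = idx (fc5 y.c) ∧ y.f6 = idx (fc6 y.c) := by
  have h := allr_mem rec_all y hy
  unfold rchk at h
  simp only [Bool.and_eq_true] at h
  obtain ⟨h0, h1, h2, h3, h4, h5, h6, h7⟩ := h
  exact ⟨leq_eq h0, Nat.eq_of_beq_eq_true h1, Nat.eq_of_beq_eq_true h2, Nat.eq_of_beq_eq_true h3,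
    Nat.eq_of_beq_eq_true h4, Nat.eq_of_beq_eq_true h5, Nat.eq_of_beq_eq_true h6,
    Nat.eq_of_beq_eq_true h7⟩

theorem idx_ok {u : ℕ} (hu : u < 1024) (hv : vld T6 u = true) :
    idx u < 120 ∧ idx (rotc u) = rt (idx u) := by
  have h := imp_of (upto_lt code6_all u hu) hv
  rw [Bool.and_eq_true] at h
  exact ⟨Nat.le_of_ble_eq_true h.1, Nat.eq_of_beq_eq_true h.2⟩

theorem code7_ok {u v : ℕ} (hu : u < 1024) (hv : v < 32) (h6 : vld T6 u = true)
    (h7 : vld T7 (u + 1024 * v) = true) : ∃ y ∈ Y, y.c = u + 1024 * v := by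
  have h := imp_of (upto_lt (imp_of (upto_lt code7_all u hu) h6) v hv) h7
  exact msk_mem (Nat.eq_of_beq_eq_true h)

theorem rt_lt {i : ℕ} (hi : i < 120) : rt i < 120 := by
  have h := upto_lt rot_all i hi
  rw [Bool.and_eq_true, Bool.and_eq_true] at h
  exact Nat.le_of_ble_eq_true h.2.1

theorem rt_six {i : ℕ} (hi : i < 120) : rt (rt (rt (rt (rt (rt i))))) = i := by
  have h := upto_lt rot_all i hi
  rw [Bool.and_eq_true, Bool.and_eq_true] at h
  exact Nat.eq_of_beq_eq_true h.2.2

theorem rt_inj {i j : ℕ} (hi : i < 120) (hj : j < 120) (h : rt i = rt j) : i = j := by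
  rw [← rt_six hi, ← rt_six hj, h]

theorem rA_rB {i : ℕ} (hi : i < 120) : rA (row (rt i)) = rB (row i) := by
  have h := upto_lt rot_all i hi
  rw [Bool.and_eq_true, Bool.and_eq_true] at h
  exact Nat.eq_of_beq_eq_true h.1

/-- one digit -/
theorem sum_one (n x k : ℕ) (hk : k < n) :
    ∑ j ∈ Finset.range n, 2 ^ (16 * j) * (x * (if j = k then 1 else 0)) = x * 2 ^ (16 * k) := by
  rw [Finset.sum_eq_single k]
  · rw [if_pos rfl, mul_one, mul_comm]
  · intro j _ hj
    rw [if_neg hj, mul_zero, mul_zero]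
  · intro hn
    exact absurd (Finset.mem_range.2 hk) hn

theorem rA_cons (e : ℕ × ℕ × ℕ) (T : List (ℕ × ℕ × ℕ)) :
    rA (e :: T) = e.2.1 * 2 ^ (16 * e.1) + rA T := rfl

theorem rB_cons (e : ℕ × ℕ × ℕ) (T : List (ℕ × ℕ × ℕ)) :
    rB (e :: T) = e.2.2 * 2 ^ (16 * rt e.1) + rB T := rfl

theorem sA_cons (e : ℕ × ℕ × ℕ) (T : List (ℕ × ℕ × ℕ)) (j : ℕ) :
    sA (e :: T) j = e.2.1 * (if j = e.1 then 1 else 0) + sA T j := rfl

theorem sB_cons (e : ℕ × ℕ × ℕ) (T : List (ℕ × ℕ × ℕ)) (j : ℕ) :
    sB (e :: T) j = e.2.2 * (if j = e.1 then 1 else 0) + sB T j := rfl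

theorem sA_rB {n : ℕ} {T : List (ℕ × ℕ × ℕ)} (hT : ∀ e ∈ T, e.1 < n) :
    rA T = ∑ j ∈ Finset.range n, 2 ^ (16 * j) * sA T j := by
  induction T with
  | nil =>
    have h : rA [] = 0 := rfl
    rw [h]
    symm
    apply Finset.sum_eq_zero
    intro j _
    exact mul_zero _
  | cons e T ih =>
    rw [rA_cons, ih fun e he => hT e (List.mem_cons_of_mem _ he)]
    simp only [sA_cons, mul_add, Finset.sum_add_distrib]
    rw [sum_one n e.2.1 e.1 (hT e (List.mem_cons_self ..))]

theorem rA_rB' {i : ℕ} (hi : i < 120) : rA (swp (row (rt i))) = rB (swp (row i)) :=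
  Nat.eq_of_beq_eq_true (upto_lt rot_all' i hi)

/-- the sum over the entries whose rotated index is `j` -/
def sR : List (ℕ × ℕ × ℕ) → ℕ → ℕ
  | [], _ => 0
  | e :: T, j => e.2.2 * (if j = rt e.1 then 1 else 0) + sR T j

theorem sR_cons (e : ℕ × ℕ × ℕ) (T : List (ℕ × ℕ × ℕ)) (j : ℕ) :
    sR (e :: T) j = e.2.2 * (if j = rt e.1 then 1 else 0) + sR T j := rfl

theorem sR_rB {n : ℕ} {T : List (ℕ × ℕ × ℕ)} (hT : ∀ e ∈ T, rt e.1 < n) :
    rB T = ∑ j ∈ Finset.range n, 2 ^ (16 * j) * sR T j := by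
  induction T with
  | nil =>
    have h : rB [] = 0 := rfl
    rw [h]
    symm
    apply Finset.sum_eq_zero
    intro j _
    exact mul_zero _
  | cons e T ih =>
    rw [rB_cons, ih fun e he => hT e (List.mem_cons_of_mem _ he)]
    simp only [sR_cons, mul_add, Finset.sum_add_distrib]
    rw [sum_one n e.2.2 (rt e.1) (hT e (List.mem_cons_self ..))]

theorem sR_eq {T : List (ℕ × ℕ × ℕ)} (hT : ∀ e ∈ T, e.1 < 120) {j : ℕ} (hj : j < 120) :
    sR T (rt j) = sB T j := by
  induction T with
  | nil => rfl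
  | cons e T ih =>
    have h1 : sR (e :: T) (rt j) = e.2.2 * (if rt j = rt e.1 then 1 else 0) + sR T (rt j) := rfl
    have h2 : sB (e :: T) j = e.2.2 * (if j = e.1 then 1 else 0) + sB T j := rfl
    rw [h1, h2, ih fun e he => hT e (List.mem_cons_of_mem _ he)]
    congr 2
    by_cases h : j = e.1
    · rw [if_pos h, if_pos (by rw [h])]
    · rw [if_neg h, if_neg fun h' => h (rt_inj hj (hT e (List.mem_cons_self ..)) h')]

theorem sR_le (T : List (ℕ × ℕ × ℕ)) (j : ℕ) : sR T j ≤ sm (T.map fun e => e.2.2) := by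
  induction T with
  | nil => exact Nat.le_refl _
  | cons e T ih =>
    rw [sR_cons, List.map_cons, sm_cons]
    split_ifs <;> omega

/-- the entries with the exchanged parts -/
theorem sA_swp (T : List (ℕ × ℕ × ℕ)) (j : ℕ) : sA (swp T) j = sB T j := by
  induction T with
  | nil => rfl
  | cons e T ih =>
    have h : swp (e :: T) = (e.1, e.2.2, e.2.1) :: swp T := rfl
    rw [h, sA_cons, sB_cons, ih]

theorem sB_swp (T : List (ℕ × ℕ × ℕ)) (j : ℕ) : sB (swp T) j = sA T j := by
  induction T with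
  | nil => rfl
  | cons e T ih =>
    have h : swp (e :: T) = (e.1, e.2.2, e.2.1) :: swp T := rfl
    rw [h, sA_cons, sB_cons, ih]

theorem swp_lt {n : ℕ} {T : List (ℕ × ℕ × ℕ)} (hT : ∀ e ∈ T, e.1 < n) : ∀ e ∈ swp T, e.1 < n := by
  induction T with
  | nil => intro e he; exact absurd he List.not_mem_nil
  | cons e T ih =>
    have h : swp (e :: T) = (e.1, e.2.2, e.2.1) :: swp T := rfl
    rw [h]
    intro f hf
    rcases List.mem_cons.1 hf with rfl | hf
    · exact hT e (List.mem_cons_self ..)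
    · exact ih (fun e he => hT e (List.mem_cons_of_mem _ he)) f hf

theorem sm_swp (T : List (ℕ × ℕ × ℕ)) :
    sm ((swp T).map fun e => e.2.2) = sm (T.map fun e => e.2.1) := by
  induction T with
  | nil => rfl
  | cons e T ih =>
    have h : swp (e :: T) = (e.1, e.2.2, e.2.1) :: swp T := rfl
    rw [h, List.map_cons, List.map_cons, sm_cons, sm_cons, ih]

theorem sm_row_le (j : ℕ) : sm ((row j).map fun e => e.2.1) ≤ 504 ∧
    sm ((row j).map fun e => e.2.2) ≤ 504 := by
  have key : rbnd (row j) = true := by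
    unfold row
    rcases nth_mem [] (nth [] TB (Nat.div j 11)) (Nat.mod j 11) with h | h
    · rw [h]; decide
    · rcases nth_mem [] TB (Nat.div j 11) with h' | h'
      · rw [h'] at h; simp at h
      · exact allr_mem (allr_mem rbnd_all _ h') _ h
  unfold rbnd at key
  rw [Bool.and_eq_true, Bool.and_eq_true] at key
  exact ⟨Nat.le_of_ble_eq_true key.1.2, Nat.le_of_ble_eq_true key.2⟩

theorem rot_gen {T T' : List (ℕ × ℕ × ℕ)} (hT : ∀ e ∈ T, e.1 < 120) (hT' : ∀ e ∈ T', e.1 < 120)
    (h : rA T' = rB T) (b1 : sm (T.map fun e => e.2.2) ≤ 504) (b2 : ∀ k, sA T' k ≤ 504) {j : ℕ}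
    (hj : j < 120) : sA T' (rt j) = sB T j := by
  have h1 := sA_rB hT'
  have h2 := sR_rB (T := T) (n := 120) fun e he => rt_lt (hT e he)
  rw [h, h2] at h1
  have h3 := dig (sR T) 16 (fun k => by
    have := (sR_le T k).trans b1
    norm_num
    omega) 120 (rt j) (rt_lt hj)
  have h4 := dig (sA T') 16 (fun k => by
    have := b2 k
    norm_num
    omega) 120 (rt j) (rt_lt hj)
  rw [← sR_eq hT hj, ← h3, ← h4, h1]

/-- the first parts of the rotated row are the second parts of the row -/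
theorem sA_rot {i j : ℕ} (hi : i < 120) (hj : j < 120) : sA (row (rt i)) (rt j) = sB (row i) j :=
  rot_gen (row_bnd i).1 (row_bnd (rt i)).1 (rA_rB hi) (sm_row_le i).2 (row_bnd (rt i)).2.1 hj

theorem sB_rot {i j : ℕ} (hi : i < 120) (hj : j < 120) : sB (row (rt i)) (rt j) = sA (row i) j := by
  have h := rot_gen (swp_lt (row_bnd i).1) (swp_lt (row_bnd (rt i)).1) (rA_rB' hi)
    (by rw [sm_swp]; exact (sm_row_le i).1)
    (fun k => by rw [sA_swp]; exact (row_bnd (rt i)).2.2 k) hj
  rwa [sA_swp, sB_swp] at h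

end C3V
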