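import Pool.Agent.H29.C3.Inv
import Pool.Agent.H54.RM.Main

/-!
# The linear programme for three surfaces: `lpVal 3 ≤ 23 / 135`
-/

set_option autoImplicit false
set_option maxRecDepth 100000

open scoped BigOperators UpperHalfPlane MatrixGroups ENNReal Nat

namespace C3V

open SimplVol

theorem rtree_isO {m : ℕ} (τ : RTree m) : IsO τ.o := ⟨τ.o_vals, τ.o_swap, τ.o_rot, τ.o_coc⟩

theorem treeVol_eq (τ : Fin 3 → RTree (3 * 2 + 1)) :
    treeVol 3 τ = (vol7 (τ 0).o (τ 1).o (τ 2).o : ℝ) / 720 := by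
  unfold treeVol vol7
  have h0 : (((3 * 2)! : ℕ) : ℝ) = 720 := by norm_num [Nat.factorial]
  rw [h0, one_div, mul_comm, ← div_eq_mul_inv]
  congr 1
  push_cast
  refine Finset.sum_congr rfl fun σ _ => ?_
  congr 1
  rw [Fin.prod_univ_three]
  have e0 : (finProdFinEquiv ((0 : Fin 3), (0 : Fin 2)) : Fin (3 * 2)) = (0 : Fin 6) := by decide
  have e1 : (finProdFinEquiv ((0 : Fin 3), (1 : Fin 2)) : Fin (3 * 2)) = (1 : Fin 6) := by decide
  have e2 : (finProdFinEquiv ((1 : Fin 3), (0 : Fin 2)) : Fin (3 * 2)) = (2 : Fin 6) := by decide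
  have e3 : (finProdFinEquiv ((1 : Fin 3), (1 : Fin 2)) : Fin (3 * 2)) = (3 : Fin 6) := by decide
  have e4 : (finProdFinEquiv ((2 : Fin 3), (0 : Fin 2)) : Fin (3 * 2)) = (4 : Fin 6) := by decide
  have e5 : (finProdFinEquiv ((2 : Fin 3), (1 : Fin 2)) : Fin (3 * 2)) = (5 : Fin 6) := by decide
  rw [e0, e1, e2, e3, e4, e5, mul_assoc]

/-- the cochain on trees -/
noncomputable def bfun (ρ : Fin 3 → RTree (3 * 2)) : ℝ := (B6s (ρ 0).o (ρ 1).o (ρ 2).o : ℝ) / 11340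

theorem lpVal_three_le : lpVal 3 ≤ 23 / 135 := by
  refine lpVal_le 3 (rtree_nonempty _) _ bfun fun τ => ?_
  have h := all_bound (rtree_isO (τ 0)) (rtree_isO (τ 1)) (rtree_isO (τ 2))
  have e : treeVol 3 τ + ∑ i : Fin (3 * 2 + 1), (-1 : ℝ) ^ (i : ℕ) *
      bfun (fun j => (τ j).pull (Fin.succAboveEmb i)) =
      ((126 * vol7 (τ 0).o (τ 1).o (τ 2).o + 8 * cob (τ 0).o (τ 1).o (τ 2).o : ℤ) : ℝ) / 90720 := by
    have e1 : (∑ i : Fin (3 * 2 + 1), (-1 : ℝ) ^ (i : ℕ) *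
      bfun (fun j => (τ j).pull (Fin.succAboveEmb i))) =
      (cob (τ 0).o (τ 1).o (τ 2).o : ℝ) / 11340 := by
      unfold cob
      push_cast
      rw [Finset.sum_div]
      refine Finset.sum_congr rfl fun i _ => ?_
      rw [mul_div_assoc]
      rfl
    rw [e1, treeVol_eq]
    push_cast
    ring
  rw [e, abs_div]
  have h2 : |((126 * vol7 (τ 0).o (τ 1).o (τ 2).o + 8 * cob (τ 0).o (τ 1).o (τ 2).o : ℤ) : ℝ)| ≤ 15456 := by
    rw [← Int.cast_abs]
    exact_mod_cast h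
  rw [abs_of_pos (by norm_num : (0 : ℝ) < 90720)]
  calc _ ≤ (15456 : ℝ) / 90720 := div_le_div_of_nonneg_right h2 (by norm_num)
    _ = 23 / 135 := by norm_num

theorem normRatio_three (Γ : Fin 3 → Subgroup SL(2, ℝ)) (hΓ : ∀ j, IsSurfaceGroup (Γ j))
    (hc : ∀ j, CompactSpace (Surf (Γ j))) :
    ENNReal.ofReal (135 / (23 * Real.pi ^ 3)) ≤ normRatio Γ := by
  rw [normRatio_eq (by norm_num) Γ hΓ hc]
  apply ENNReal.ofReal_le_ofReal
  have h1 := lpVal_pos (n := 3) (by norm_num)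
  have h2 := lpVal_three_le
  have h3 : 0 < Real.pi ^ 3 := pow_pos Real.pi_pos 3
  rw [div_le_div_iff₀ (by positivity) (by positivity)]
  nlinarith

end C3V
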