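import Pool.Agent.H29.C3.Alt
import Pool.Agent.H54.RM.A2

/-!
# The cochain for three surfaces
-/

set_option autoImplicit false
set_option maxRecDepth 100000

open scoped BigOperators

namespace C3V

/-! ### sorting a cyclic order -/

theorem exists_sort {m : ℕ} {o : Fin (m + 1) → Fin (m + 1) → Fin (m + 1) → ℤ} (ho : IsO o) :
    ∃ g : Equiv.Perm (Fin (m + 1)), g 0 = 0 ∧ res o g = std := by
  classical
  have z1 : ∀ a b, o a b b = 0 := fun a b => by have := ho.swap a b b; omega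
  have z2 : ∀ a b, o a a b = 0 := fun a b => by rw [ho.rot b a a]; exact z1 b a
  have z3 : ∀ a b, o a b a = 0 := fun a b => by rw [ho.rot a a b]; exact z2 a b
  let f : Fin (m + 1) → ℕ := fun a =>
    if a = 0 then 0 else 1 + (Finset.univ.filter fun b => o 0 b a = 1).card
  have mono : ∀ a b, o 0 a b = 1 → f a < f b := by
    intro a b h
    have ha : a ≠ 0 := by rintro rfl; rw [z2] at h; omega
    have hb : b ≠ 0 := by rintro rfl; rw [z3] at h; omega
    have hab : a ≠ b := by rintro rfl; rw [z1] at h; omega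
    show (if a = 0 then 0 else _) < (if b = 0 then 0 else _)
    rw [if_neg ha, if_neg hb]
    apply Nat.add_lt_add_left
    apply Finset.card_lt_card
    rw [Finset.ssubset_iff_of_subset]
    · refine ⟨a, ?_, ?_⟩
      · rw [Finset.mem_filter]; exact ⟨Finset.mem_univ _, h⟩
      · rw [Finset.mem_filter, z1]; omega
    · intro c hc
      rw [Finset.mem_filter] at hc ⊢
      refine ⟨Finset.mem_univ _, ?_⟩
      have hc := hc.2
      have hc0 : (0 : Fin (m + 1)) ≠ c := by rintro rfl; rw [z2] at hc; omega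
      have hca : c ≠ a := by rintro rfl; rw [z1] at hc; omega
      have hcb : c ≠ b := by
        rintro rfl
        have := ho.swap 0 c a
        omega
      have h1 := ho.coc 0 c a b
      rcases ho.vals c a b hca hab hcb with h2 | h2 <;>
      rcases ho.vals 0 c b hc0 hcb hb.symm with h3 | h3 <;> omega
  have zero : ∀ a, a ≠ 0 → f 0 < f a := by
    intro a ha
    show (if (0 : Fin (m + 1)) = 0 then 0 else _) < (if a = 0 then 0 else _)
    rw [if_pos rfl, if_neg ha]
    omega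
  have tot : ∀ a b, a ≠ b → f a ≠ f b := by
    intro a b hab
    by_cases ha : a = 0
    · subst ha
      exact (zero b (Ne.symm hab)).ne
    · by_cases hb : b = 0
      · subst hb
        exact (zero a ha).ne'
      · rcases ho.vals 0 a b (Ne.symm ha) hab (Ne.symm hb) with h | h
        · exact (mono a b h).ne
        · have h2 : o 0 b a = 1 := by
            have := ho.swap 0 a b
            omega
          exact (mono b a h2).ne'
  have finj : Function.Injective f := fun a b h => by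
    by_contra hab
    exact tot a b hab h
  have hm : Monotone (f ∘ Tuple.sort f) := Tuple.monotone_sort f
  have hs : StrictMono (f ∘ Tuple.sort f) :=
    hm.strictMono_of_injective (finj.comp (Tuple.sort f).injective)
  have g0 : Tuple.sort f 0 = 0 := by
    by_contra h
    have h1 := zero _ h
    obtain ⟨x, hx⟩ := (Tuple.sort f).surjective 0
    have h2 : f (Tuple.sort f 0) ≤ f (Tuple.sort f x) := hm (Fin.zero_le x)
    rw [hx] at h2
    omega
  refine ⟨Tuple.sort f, g0, ?_⟩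
  have key : ∀ a b, o 0 (Tuple.sort f a) (Tuple.sort f b) = lam a b := by
    intro a b
    unfold lam
    split_ifs with h1 h2
    · rcases h1 with rfl | rfl | rfl
      · rw [g0]; exact z2 _ _
      · rw [g0]; exact z3 _ _
      · exact z1 _ _
    · push Not at h1
      obtain ⟨ha, hb, hab⟩ := h1
      have ha' : (0 : Fin (m + 1)) ≠ Tuple.sort f a := fun h => ha ((Tuple.sort f).injective (by rw [g0, ← h]))
      have hb' : (0 : Fin (m + 1)) ≠ Tuple.sort f b := fun h => hb ((Tuple.sort f).injective (by rw [g0, ← h]))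
      rcases ho.vals 0 _ _ ha' (fun h => hab ((Tuple.sort f).injective h)) hb' with h | h
      · exact h
      · exfalso
        have h3 : o 0 (Tuple.sort f b) (Tuple.sort f a) = 1 := by
          have := ho.swap 0 (Tuple.sort f a) (Tuple.sort f b)
          omega
        have h4 := mono _ _ h3
        have h5 : f (Tuple.sort f a) < f (Tuple.sort f b) := hs h2
        omega
    · push Not at h1
      obtain ⟨ha, hb, hab⟩ := h1
      have ha' : (0 : Fin (m + 1)) ≠ Tuple.sort f a := fun h => ha ((Tuple.sort f).injective (by rw [g0, ← h]))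
      have hb' : (0 : Fin (m + 1)) ≠ Tuple.sort f b := fun h => hb ((Tuple.sort f).injective (by rw [g0, ← h]))
      rcases ho.vals 0 _ _ ha' (fun h => hab ((Tuple.sort f).injective h)) hb' with h | h
      · exfalso
        have h4 := mono _ _ h
        have h6 : b < a := lt_of_le_of_ne (not_lt.1 h2) (Ne.symm hab)
        have h5 : f (Tuple.sort f b) < f (Tuple.sort f a) := hs h6
        omega
      · exact h
  funext a b c
  show o (Tuple.sort f a) (Tuple.sort f b) (Tuple.sort f c) = std a b c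
  have h := ho.coc 0 (Tuple.sort f a) (Tuple.sort f b) (Tuple.sort f c)
  unfold std
  rw [← key, ← key, ← key]
  omega

/-! ### the volume form -/

/-- the volume form (times `720`) -/
def vol7 (o0 o1 o2 : Fin 7 → Fin 7 → Fin 7 → ℤ) : ℤ :=
  ∑ σ : Equiv.Perm (Fin 6), (Equiv.Perm.sign σ : ℤ) * (o0 0 (σ 0).succ (σ 1).succ *
    (o1 0 (σ 2).succ (σ 3).succ * o2 0 (σ 4).succ (σ 5).succ))

theorem sgn_sq {m : ℕ} (g : Equiv.Perm (Fin m)) :
    (Equiv.Perm.sign g : ℤ) * (Equiv.Perm.sign g : ℤ) = 1 := by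
  rcases Int.units_eq_one_or (Equiv.Perm.sign g) with h | h <;> rw [h] <;> rfl

theorem vol7_alt (g : Equiv.Perm (Fin 7)) (h0 : g 0 = 0) (o0 o1 o2 : Fin 7 → Fin 7 → Fin 7 → ℤ) :
    vol7 (res o0 g) (res o1 g) (res o2 g) = (Equiv.Perm.sign g : ℤ) * vol7 o0 o1 o2 := by
  obtain ⟨π, h1, h2⟩ := SimplVol.ps_restrict g h0
  unfold vol7
  rw [← Equiv.sum_comp (Equiv.mulLeft π) (fun σ : Equiv.Perm (Fin 6) =>
    (Equiv.Perm.sign σ : ℤ) * (o0 0 (σ 0).succ (σ 1).succ *
    (o1 0 (σ 2).succ (σ 3).succ * o2 0 (σ 4).succ (σ 5).succ))), Finset.mul_sum]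
  refine Finset.sum_congr rfl fun σ _ => ?_
  simp only [res, h0, h1, Equiv.coe_mulLeft, Equiv.Perm.mul_apply, Equiv.Perm.sign_mul, h2,
    Units.val_mul]
  have h3 := sgn_sq g
  linear_combination (-1 : ℤ) * (((Equiv.Perm.sign σ : ℤ) * (o0 0 (π (σ 0)).succ (π (σ 1)).succ *
    (o1 0 (π (σ 2)).succ (π (σ 3)).succ * o2 0 (π (σ 4)).succ (π (σ 5)).succ)))) * h3

theorem vol7_std {p q : Fin 7 → Fin 7 → Fin 7 → ℤ} (hp : IsO p) (hq : IsO q) :
    vol7 std p q = 8 * Dx p q :=
  s6 (fun a b => p 0 a b) (fun a b => q 0 a b) (fun a b => hp.swap 0 a b) (fun a b => hq.swap 0 a b)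

/-! ### the cochain -/

open Classical in
/-- the cochain (times `11340`) -/
noncomputable def B6s (o0 o1 o2 : Fin 6 → Fin 6 → Fin 6 → ℤ) : ℤ :=
  ∑ π : Equiv.Perm (Fin 6), (Equiv.Perm.sign π : ℤ) *
    (if res o0 π = std then bet (idx (code6 (res o1 π))) (idx (code6 (res o2 π))) else 0)

theorem B6s_alt (g : Equiv.Perm (Fin 6)) (o0 o1 o2 : Fin 6 → Fin 6 → Fin 6 → ℤ) :
    B6s (res o0 g) (res o1 g) (res o2 g) = (Equiv.Perm.sign g : ℤ) * B6s o0 o1 o2 := by
  classical
  unfold B6s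
  rw [← Equiv.sum_comp (Equiv.mulLeft g) (fun π : Equiv.Perm (Fin 6) =>
    (Equiv.Perm.sign π : ℤ) * (if res o0 π = std then
      bet (idx (code6 (res o1 π))) (idx (code6 (res o2 π))) else 0)), Finset.mul_sum]
  refine Finset.sum_congr rfl fun π _ => ?_
  have e : ∀ o : Fin 6 → Fin 6 → Fin 6 → ℤ, res (res o g) π = res o ((Equiv.mulLeft g) π) :=
    fun _ => rfl
  rw [e, e, e, Equiv.coe_mulLeft, Equiv.Perm.sign_mul, Units.val_mul]
  have h3 := sgn_sq g
  generalize (if res o0 ⇑(g * π) = std then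
      bet (idx (code6 (res o1 ⇑(g * π)))) (idx (code6 (res o2 ⇑(g * π)))) else 0) = X
  linear_combination (-1 : ℤ) * ((Equiv.Perm.sign π : ℤ) * X) * h3

theorem bet_rot {p q : Fin 6 → Fin 6 → Fin 6 → ℤ} (hp : IsO p) (hq : IsO q) :
    bet (idx (code6 (res p rr))) (idx (code6 (res q rr))) =
      - bet (idx (code6 p)) (idx (code6 q)) := by
  have h1 := idx_ok (code6_lt p) (vld6 hp)
  have h2 := idx_ok (code6_lt q) (vld6 hq)
  rw [← rotc_code hp, ← rotc_code hq, h1.2, h2.2]
  unfold bet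
  rw [sA_rot h1.1 h2.1, sB_rot h1.1 h2.1]
  ring

/-- the rotation as a permutation -/
def R : Equiv.Perm (Fin 6) := finRotate 6

theorem R_apply (x : Fin 6) : R x = rr x := finRotate_apply x

theorem of_succ (n : ℕ) : Fin.ofNat 6 (n + 1) = Fin.ofNat 6 n + 1 := by
  apply Fin.ext
  show (n + 1) % 6 = (n % 6 + 1 % 6) % 6
  omega

theorem of_val (x : Fin 6) : Fin.ofNat 6 (x : ℕ) = x := by
  apply Fin.ext
  show (x : ℕ) % 6 = x
  omega

theorem R_pow (n : ℕ) (x : Fin 6) : (R ^ n) x = x + Fin.ofNat 6 n := by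
  induction n generalizing x with
  | zero =>
    show x = x + 0
    rw [add_zero]
  | succ n ih =>
    rw [pow_succ, Equiv.Perm.mul_apply, ih, R_apply]
    unfold rr
    rw [of_succ, add_assoc, add_comm 1]

theorem rr_inj : Function.Injective rr := fun x y h => by
  unfold rr at h
  exact add_right_cancel h

theorem res_R_pow (o : Fin 6 → Fin 6 → Fin 6 → ℤ) (n : ℕ) :
    res o (R ^ (n + 1) : Equiv.Perm (Fin 6)) = res (res o (R ^ n : Equiv.Perm (Fin 6))) rr := by
  funext a b c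
  show o _ _ _ = o _ _ _
  rw [pow_succ, Equiv.Perm.mul_apply, Equiv.Perm.mul_apply, Equiv.Perm.mul_apply, R_apply, R_apply,
    R_apply]

theorem res_one (o : Fin 6 → Fin 6 → Fin 6 → ℤ) : res o (R ^ 0 : Equiv.Perm (Fin 6)) = o := rfl

theorem bet_pow {p q : Fin 6 → Fin 6 → Fin 6 → ℤ} (hp : IsO p) (hq : IsO q) (n : ℕ) :
    bet (idx (code6 (res p (R ^ n : Equiv.Perm (Fin 6)))))
      (idx (code6 (res q (R ^ n : Equiv.Perm (Fin 6))))) =
      (-1) ^ n * bet (idx (code6 p)) (idx (code6 q)) := by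
  induction n with
  | zero => rw [res_one, res_one, pow_zero, one_mul]
  | succ n ih =>
    rw [res_R_pow, res_R_pow, bet_rot (hp.res (R ^ n).injective) (hq.res (R ^ n).injective), ih,
      pow_succ]
    ring

theorem std_rr : res (std : Fin 6 → Fin 6 → Fin 6 → ℤ) rr = std := by
  have h : ∀ a b c : Fin 6, std (rr a) (rr b) (rr c) = std a b c := by decide +kernel
  funext a b c
  exact h a b c

theorem std_pow (n : ℕ) : res (std : Fin 6 → Fin 6 → Fin 6 → ℤ) (R ^ n : Equiv.Perm (Fin 6)) = std := by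
  induction n with
  | zero => rfl
  | succ n ih => rw [res_R_pow, ih, std_rr]

theorem eq_pow {π : Equiv.Perm (Fin 6)} (h : res (std : Fin 6 → Fin 6 → Fin 6 → ℤ) π = std) :
    π = R ^ ((π 0 : Fin 6) : ℕ) := by
  have h1 : ∀ a b : Fin 6, a ≠ b → (∀ c, c ≠ a → c ≠ b → std a b c = 1) → b = rr a := by
    decide +kernel
  have h2 : ∀ x c : Fin 6, c ≠ x → c ≠ rr x → std x (rr x) c = 1 := by decide +kernel
  have h3 : ∀ x : Fin 6, x ≠ rr x := by decide
  have h4 : ∀ x, π (rr x) = rr (π x) := by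
    intro x
    refine h1 (π x) (π (rr x)) (fun hh => h3 x (π.injective hh)) fun c hc1 hc2 => ?_
    obtain ⟨d, rfl⟩ := π.surjective c
    have h5 := congrFun (congrFun (congrFun h x) (rr x)) d
    show res std π x (rr x) d = 1
    rw [h5]
    exact h2 x d (fun hh => hc1 (by rw [hh])) (fun hh => hc2 (by rw [hh]))
  have h6 : ∀ n : ℕ, π (Fin.ofNat 6 n) = Fin.ofNat 6 n + π 0 := by
    intro n
    induction n with
    | zero =>
      show π 0 = 0 + π 0
      rw [zero_add]
    | succ n ih =>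
      have h7 := h4 (Fin.ofNat 6 n)
      unfold rr at h7
      rw [of_succ, h7, ih, add_right_comm]
  apply Equiv.ext
  intro x
  have h8 := h6 (x : ℕ)
  rw [of_val] at h8
  rw [h8, R_pow, of_val]

theorem sign_R (n : ℕ) : (Equiv.Perm.sign (R ^ n) : ℤ) = (-1) ^ n := by
  have h : Equiv.Perm.sign R = -1 := by
    unfold R
    rw [sign_finRotate]
    rfl
  rw [map_pow, h]
  push_cast
  rfl

theorem B6s_std {p q : Fin 6 → Fin 6 → Fin 6 → ℤ} (hp : IsO p) (hq : IsO q) :
    B6s std p q = 6 * bet (idx (code6 p)) (idx (code6 q)) := by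
  classical
  unfold B6s
  have h1 : ∑ π : Equiv.Perm (Fin 6), (Equiv.Perm.sign π : ℤ) *
      (if res (std : Fin 6 → Fin 6 → Fin 6 → ℤ) π = std then
        bet (idx (code6 (res p π))) (idx (code6 (res q π))) else 0) =
      ∑ π ∈ Finset.univ.image (fun k : Fin 6 => R ^ (k : ℕ)), (Equiv.Perm.sign π : ℤ) *
      (if res (std : Fin 6 → Fin 6 → Fin 6 → ℤ) π = std then
        bet (idx (code6 (res p π))) (idx (code6 (res q π))) else 0) := by
    symm
    apply Finset.sum_subset (Finset.subset_univ _)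
    intro π _ hπ
    rw [if_neg, mul_zero]
    intro h
    exact hπ (Finset.mem_image.2 ⟨π 0, Finset.mem_univ _, (eq_pow h).symm⟩)
  rw [h1, Finset.sum_image]
  · have h2 : ∀ k : Fin 6, (Equiv.Perm.sign (R ^ (k : ℕ)) : ℤ) *
      (if res (std : Fin 6 → Fin 6 → Fin 6 → ℤ) (R ^ (k : ℕ) : Equiv.Perm (Fin 6)) = std then
        bet (idx (code6 (res p (R ^ (k : ℕ) : Equiv.Perm (Fin 6)))))
          (idx (code6 (res q (R ^ (k : ℕ) : Equiv.Perm (Fin 6))))) else 0) =
        bet (idx (code6 p)) (idx (code6 q)) := by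
      intro k
      rw [if_pos (std_pow _), sign_R, bet_pow hp hq, ← mul_assoc, ← mul_pow]
      norm_num
    rw [Finset.sum_congr rfl fun k _ => h2 k, Finset.sum_const, Finset.card_univ, Fintype.card_fin]
    norm_num
  · intro i _ j _ hij
    have h3 := congrArg (fun g : Equiv.Perm (Fin 6) => g 0) hij
    simp only [R_pow, of_val, zero_add] at h3
    exact h3

/-! ### the coboundary -/

/-- the coboundary of the cochain -/
noncomputable def cob (o0 o1 o2 : Fin 7 → Fin 7 → Fin 7 → ℤ) : ℤ :=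
  ∑ i : Fin 7, (-1 : ℤ) ^ (i : ℕ) *
    B6s (res o0 i.succAbove) (res o1 i.succAbove) (res o2 i.succAbove)

theorem cob_alt (g : Equiv.Perm (Fin 7)) (o0 o1 o2 : Fin 7 → Fin 7 → Fin 7 → ℤ) :
    cob (res o0 g) (res o1 g) (res o2 g) = (Equiv.Perm.sign g : ℤ) * cob o0 o1 o2 := by
  unfold cob
  rw [← Equiv.sum_comp g (fun i : Fin 7 => (-1 : ℤ) ^ (i : ℕ) *
    B6s (res o0 i.succAbove) (res o1 i.succAbove) (res o2 i.succAbove)), Finset.mul_sum]
  refine Finset.sum_congr rfl fun c _ => ?_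
  obtain ⟨π, h1, h2⟩ := SimplVol.exists_perm_face g c
  have e : ∀ o : Fin 7 → Fin 7 → Fin 7 → ℤ,
      res (res o g) c.succAbove = res (res o (g c).succAbove) π := by
    intro o
    funext x y z
    show o _ _ _ = o _ _ _
    rw [h1, h1, h1]
  rw [e, e, e, B6s_alt]
  have h3 : (Equiv.Perm.sign π : ℤ) = (Equiv.Perm.sign g : ℤ) * (-1) ^ ((c : ℕ) + ((g c : Fin 7) : ℕ)) := by
    exact_mod_cast h2
  rw [h3, pow_add]
  have h4 : ((-1 : ℤ) ^ (c : ℕ)) * (-1) ^ (c : ℕ) = 1 := by rw [← mul_pow]; norm_num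
  linear_combination ((Equiv.Perm.sign g : ℤ) * (-1) ^ ((g c : Fin 7) : ℕ) *
    B6s (res o0 (g c).succAbove) (res o1 (g c).succAbove) (res o2 (g c).succAbove)) * h4

theorem std_face (i : Fin 7) : res (std : Fin 7 → Fin 7 → Fin 7 → ℤ) i.succAbove = std := by
  have h : ∀ (i : Fin 7) (a b c : Fin 6), std (i.succAbove a) (i.succAbove b) (i.succAbove c) =
    std a b c := by decide +kernel
  funext a b c
  exact h i a b c

/-- the bound for the standard first order -/
theorem std_bound {p q : Fin 7 → Fin 7 → Fin 7 → ℤ} (hp : IsO p) (hq : IsO q) :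
    |21 * Dx p q + ∑ i : Fin 7, (-1 : ℤ) ^ (i : ℕ) *
      bet (idx (code6 (res p i.succAbove))) (idx (code6 (res q i.succAbove)))| ≤ 322 := by
  obtain ⟨x, hx, hxc⟩ := exists_rec hp
  obtain ⟨y, hy, hyc⟩ := exists_rec hq
  obtain ⟨n1, x0, x1, x2, x3, x4, x5, x6⟩ := rec_ok hx
  obtain ⟨-, y0, y1, y2, y3, y4, y5, y6⟩ := rec_ok hy
  rw [hxc] at n1 x0 x1 x2 x3 x4 x5 x6
  rw [hyc] at y0 y1 y2 y3 y4 y5 y6
  rw [fc0_code hp] at x0
  rw [fc1_code hp] at x1
  rw [fc2_code hp] at x2
  rw [fc3_code hp] at x3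
  rw [fc4_code hp] at x4
  rw [fc5_code hp] at x5
  rw [fc6_code hp] at x6
  rw [fc0_code hq] at y0
  rw [fc1_code hq] at y1
  rw [fc2_code hq] at y2
  rw [fc3_code hq] at y3
  rw [fc4_code hq] at y4
  rw [fc5_code hq] at y5
  rw [fc6_code hq] at y6
  have h1 := vol_id hp hq n1 hyc
  have h2 := pair_bound hx hy
  unfold LL RR at h2
  obtain ⟨h3, h4⟩ := h2
  zify at h3 h4
  have h5 : ∑ i : Fin 7, (-1 : ℤ) ^ (i : ℕ) *
      bet (idx (code6 (res p i.succAbove))) (idx (code6 (res q i.succAbove))) =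
      bet x.f0 y.f0 - bet x.f1 y.f1 + bet x.f2 y.f2 - bet x.f3 y.f3 + bet x.f4 y.f4 -
        bet x.f5 y.f5 + bet x.f6 y.f6 := by
    rw [x0, x1, x2, x3, x4, x5, x6, y0, y1, y2, y3, y4, y5, y6, Fin.sum_univ_seven]
    have w0 : ((0 : Fin 7) : ℕ) = 0 := rfl
    have w1 : ((1 : Fin 7) : ℕ) = 1 := rfl
    have w2 : ((2 : Fin 7) : ℕ) = 2 := rfl
    have w3 : ((3 : Fin 7) : ℕ) = 3 := rfl
    have w4 : ((4 : Fin 7) : ℕ) = 4 := rfl
    have w5 : ((5 : Fin 7) : ℕ) = 5 := rfl
    have w6 : ((6 : Fin 7) : ℕ) = 6 := rfl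
    rw [w0, w1, w2, w3, w4, w5, w6]
    ring
  rw [h5, ← h1]
  unfold bet
  rw [abs_le]
  constructor <;> linarith

/-- **The bound for three cyclic orders.** -/
theorem all_bound {o0 o1 o2 : Fin 7 → Fin 7 → Fin 7 → ℤ} (h0 : IsO o0) (h1 : IsO o1)
    (h2 : IsO o2) : |126 * vol7 o0 o1 o2 + 8 * cob o0 o1 o2| ≤ 15456 := by
  obtain ⟨g, hg0, hg⟩ := exists_sort h0
  have e1 := vol7_alt g hg0 o0 o1 o2
  have e2 := cob_alt g o0 o1 o2
  have hp := h1.res g.injective
  have hq := h2.res g.injective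
  rw [hg] at e1 e2
  rw [vol7_std hp hq] at e1
  have e3 : cob std (res o1 g) (res o2 g) = ∑ i : Fin 7, (-1 : ℤ) ^ (i : ℕ) *
      (6 * bet (idx (code6 (res (res o1 g) i.succAbove))) (idx (code6 (res (res o2 g) i.succAbove)))) := by
    unfold cob
    refine Finset.sum_congr rfl fun i _ => ?_
    rw [std_face, B6s_std (hp.res Fin.succAbove_right_injective) (hq.res Fin.succAbove_right_injective)]
  have e4 := std_bound hp hq
  have e5 : 126 * vol7 o0 o1 o2 + 8 * cob o0 o1 o2 = (Equiv.Perm.sign g : ℤ) * (48 *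
      (21 * Dx (res o1 g) (res o2 g) + ∑ i : Fin 7, (-1 : ℤ) ^ (i : ℕ) *
      bet (idx (code6 (res (res o1 g) i.succAbove))) (idx (code6 (res (res o2 g) i.succAbove))))) := by
    have h3 := sgn_sq g
    have e6 : ∑ i : Fin 7, (-1 : ℤ) ^ (i : ℕ) *
      (6 * bet (idx (code6 (res (res o1 g) i.succAbove))) (idx (code6 (res (res o2 g) i.succAbove)))) =
      6 * ∑ i : Fin 7, (-1 : ℤ) ^ (i : ℕ) *
      bet (idx (code6 (res (res o1 g) i.succAbove))) (idx (code6 (res (res o2 g) i.succAbove))) := by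
      rw [Finset.mul_sum]
      exact Finset.sum_congr rfl fun i _ => by ring
    rw [e3, e6] at e2
    linear_combination (-(126 * vol7 o0 o1 o2 + 8 * cob o0 o1 o2)) * h3 +
      (-126 * (Equiv.Perm.sign g : ℤ)) * e1 + (-8 * (Equiv.Perm.sign g : ℤ)) * e2
  rw [e5, abs_mul, abs_mul]
  have h6 : |(Equiv.Perm.sign g : ℤ)| = 1 := by
    rcases Int.units_eq_one_or (Equiv.Perm.sign g) with h | h <;> rw [h] <;> rfl
  rw [h6]
  have h7 : |(48 : ℤ)| = 48 := rfl
  rw [h7]
  linarith

end C3V
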