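import Pool.Agent.H29.C3.Cod

/-!
# Cyclic orders and their codes
-/

set_option autoImplicit false
set_option maxRecDepth 100000

namespace C3V

/-- a cyclic order -/
structure IsO {m : ℕ} (o : Fin m → Fin m → Fin m → ℤ) : Prop where
  vals : ∀ a b c, a ≠ b → b ≠ c → a ≠ c → o a b c = 1 ∨ o a b c = -1
  swap : ∀ a b c, o a c b = - o a b c
  rot : ∀ a b c, o b c a = o a b c
  coc : ∀ a b c d, o b c d - o a c d + o a b d - o a b c = 0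

/-- relabelling -/
def res {k m : ℕ} (o : Fin m → Fin m → Fin m → ℤ) (f : Fin k → Fin m) :
    Fin k → Fin k → Fin k → ℤ := fun a b c => o (f a) (f b) (f c)

theorem IsO.res {k m : ℕ} {o : Fin m → Fin m → Fin m → ℤ} (ho : IsO o) {f : Fin k → Fin m}
    (hf : Function.Injective f) : IsO (res o f) where
  vals a b c hab hbc hac := ho.vals _ _ _ (fun h => hab (hf h)) (fun h => hbc (hf h))
    (fun h => hac (hf h))
  swap a b c := ho.swap _ _ _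
  rot a b c := ho.rot _ _ _
  coc a b c d := ho.coc _ _ _ _

/-- the orientation as a bit -/
def bit3 {m : ℕ} (o : Fin m → Fin m → Fin m → ℤ) (a b c : Fin m) : ℕ :=
  if o a b c = 1 then 1 else 0

theorem bit3_le {m : ℕ} (o : Fin m → Fin m → Fin m → ℤ) (a b c : Fin m) : bit3 o a b c ≤ 1 := by
  unfold bit3
  split_ifs <;> omega

theorem bit3_two {m : ℕ} {o : Fin m → Fin m → Fin m → ℤ} (ho : IsO o) {a b c : Fin m}
    (hab : a ≠ b) (hbc : b ≠ c) (hac : a ≠ c) : 2 * (bit3 o a b c : ℤ) = 1 + o a b c := by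
  unfold bit3
  rcases ho.vals a b c hab hbc hac with h | h <;> rw [h] <;> norm_num

theorem v3_bit {m : ℕ} {o : Fin m → Fin m → Fin m → ℤ} (ho : IsO o) (z a b c : Fin m)
    (hza : z ≠ a) (hzb : z ≠ b) (hzc : z ≠ c) (hab : a ≠ b) (hbc : b ≠ c) (hac : a ≠ c) :
    v3 (bit3 o z a b) (bit3 o z b c) (bit3 o z a c) = true := by
  have h := ho.coc z a b c
  rcases ho.vals a b c hab hbc hac with h1 | h1 <;>
  rcases ho.vals z b c hzb hbc hzc with h2 | h2 <;>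
  rcases ho.vals z a c hza hac hzc with h3 | h3 <;>
  rcases ho.vals z a b hza hab hzb with h4 | h4 <;>
  first
  | (exfalso; omega)
  | (unfold bit3; rw [h2, h3, h4]; decide)

theorem pick_bit {m : ℕ} {o : Fin m → Fin m → Fin m → ℤ} (ho : IsO o) (z a b c : Fin m)
    (hza : z ≠ a) (hzb : z ≠ b) (hzc : z ≠ c) (hab : a ≠ b) (hbc : b ≠ c) (hac : a ≠ c) :
    pick (bit3 o z a b) (bit3 o z a c) (bit3 o z b c) = bit3 o a b c := by
  have h := ho.coc z a b c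
  rcases ho.vals a b c hab hbc hac with h1 | h1 <;>
  rcases ho.vals z b c hzb hbc hzc with h2 | h2 <;>
  rcases ho.vals z a c hza hac hzc with h3 | h3 <;>
  rcases ho.vals z a b hza hab hzb with h4 | h4 <;>
  first
  | (exfalso; omega)
  | (unfold bit3; rw [h1, h2, h3, h4]; decide)

/-- the bits of a cyclic order of six points -/
def l6 (o : Fin 6 → Fin 6 → Fin 6 → ℤ) : List ℕ := [bit3 o 0 1 2, bit3 o 0 1 3, bit3 o 0 2 3, bit3 o 0 1 4, bit3 o 0 2 4, bit3 o 0 3 4, bit3 o 0 1 5, bit3 o 0 2 5, bit3 o 0 3 5, bit3 o 0 4 5]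

/-- the bits of a cyclic order of seven points -/
def l7 (o : Fin 7 → Fin 7 → Fin 7 → ℤ) : List ℕ := [bit3 o 0 1 2, bit3 o 0 1 3, bit3 o 0 2 3, bit3 o 0 1 4, bit3 o 0 2 4,
  bit3 o 0 3 4, bit3 o 0 1 5, bit3 o 0 2 5, bit3 o 0 3 5, bit3 o 0 4 5,
  bit3 o 0 1 6, bit3 o 0 2 6, bit3 o 0 3 6, bit3 o 0 4 6, bit3 o 0 5 6]

noncomputable def code6 (o : Fin 6 → Fin 6 → Fin 6 → ℤ) : ℕ := mkl (l6 o)

noncomputable def code7 (o : Fin 7 → Fin 7 → Fin 7 → ℤ) : ℕ := mkl (l7 o)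

theorem l6_le (o : Fin 6 → Fin 6 → Fin 6 → ℤ) : ∀ b ∈ l6 o, b ≤ 1 := by
  intro b hb
  unfold l6 at hb
  simp only [List.mem_cons, List.not_mem_nil, or_false] at hb
  rcases hb with rfl | rfl | rfl | rfl | rfl | rfl | rfl | rfl | rfl | rfl <;> exact bit3_le _ _ _ _

theorem l7_le (o : Fin 7 → Fin 7 → Fin 7 → ℤ) : ∀ b ∈ l7 o, b ≤ 1 := by
  intro b hb
  unfold l7 at hb
  simp only [List.mem_cons, List.not_mem_nil, or_false] at hb
  rcases hb with rfl | rfl | rfl | rfl | rfl | rfl | rfl | rfl | rfl | rfl | rfl | rfl | rfl | rfl | rfl <;> exact bit3_le _ _ _ _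

theorem bb6 (o : Fin 6 → Fin 6 → Fin 6 → ℤ) (z : ℕ) : bb (code6 o) z = (l6 o).getD z 0 :=
  bb_mkl _ (l6_le o) z

theorem bb7 (o : Fin 7 → Fin 7 → Fin 7 → ℤ) (z : ℕ) : bb (code7 o) z = (l7 o).getD z 0 :=
  bb_mkl _ (l7_le o) z

theorem code6_lt (o : Fin 6 → Fin 6 → Fin 6 → ℤ) : code6 o < 1024 := mkl_lt _ (l6_le o)

theorem vld6 {o : Fin 6 → Fin 6 → Fin 6 → ℤ} (ho : IsO o) : vld T6 (code6 o) = true := by
  unfold vld
  refine allr_of fun t ht => ?_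
  simp only [bb6]
  unfold T6 at ht
  simp only [List.mem_cons, List.not_mem_nil, or_false] at ht
  rcases ht with rfl | rfl | rfl | rfl | rfl | rfl | rfl | rfl | rfl | rfl
  · exact v3_bit ho 0 1 2 3 (by decide) (by decide) (by decide) (by decide) (by decide) (by decide)
  · exact v3_bit ho 0 1 2 4 (by decide) (by decide) (by decide) (by decide) (by decide) (by decide)
  · exact v3_bit ho 0 1 2 5 (by decide) (by decide) (by decide) (by decide) (by decide) (by decide)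
  · exact v3_bit ho 0 1 3 4 (by decide) (by decide) (by decide) (by decide) (by decide) (by decide)
  · exact v3_bit ho 0 1 3 5 (by decide) (by decide) (by decide) (by decide) (by decide) (by decide)
  · exact v3_bit ho 0 1 4 5 (by decide) (by decide) (by decide) (by decide) (by decide) (by decide)
  · exact v3_bit ho 0 2 3 4 (by decide) (by decide) (by decide) (by decide) (by decide) (by decide)
  · exact v3_bit ho 0 2 3 5 (by decide) (by decide) (by decide) (by decide) (by decide) (by decide)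
  · exact v3_bit ho 0 2 4 5 (by decide) (by decide) (by decide) (by decide) (by decide) (by decide)
  · exact v3_bit ho 0 3 4 5 (by decide) (by decide) (by decide) (by decide) (by decide) (by decide)

theorem vld7 {o : Fin 7 → Fin 7 → Fin 7 → ℤ} (ho : IsO o) : vld T7 (code7 o) = true := by
  unfold vld
  refine allr_of fun t ht => ?_
  simp only [bb7]
  unfold T7 at ht
  simp only [List.mem_cons, List.not_mem_nil, or_false] at ht
  rcases ht with rfl | rfl | rfl | rfl | rfl | rfl | rfl | rfl | rfl | rfl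
  · exact v3_bit ho 0 1 2 6 (by decide) (by decide) (by decide) (by decide) (by decide) (by decide)
  · exact v3_bit ho 0 1 3 6 (by decide) (by decide) (by decide) (by decide) (by decide) (by decide)
  · exact v3_bit ho 0 1 4 6 (by decide) (by decide) (by decide) (by decide) (by decide) (by decide)
  · exact v3_bit ho 0 1 5 6 (by decide) (by decide) (by decide) (by decide) (by decide) (by decide)
  · exact v3_bit ho 0 2 3 6 (by decide) (by decide) (by decide) (by decide) (by decide) (by decide)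
  · exact v3_bit ho 0 2 4 6 (by decide) (by decide) (by decide) (by decide) (by decide) (by decide)
  · exact v3_bit ho 0 2 5 6 (by decide) (by decide) (by decide) (by decide) (by decide) (by decide)
  · exact v3_bit ho 0 3 4 6 (by decide) (by decide) (by decide) (by decide) (by decide) (by decide)
  · exact v3_bit ho 0 3 5 6 (by decide) (by decide) (by decide) (by decide) (by decide) (by decide)
  · exact v3_bit ho 0 4 5 6 (by decide) (by decide) (by decide) (by decide) (by decide) (by decide)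

/-- the rotation of six points -/
def rr (x : Fin 6) : Fin 6 := x + 1

theorem rotc_code {o : Fin 6 → Fin 6 → Fin 6 → ℤ} (ho : IsO o) :
    rotc (code6 o) = code6 (res o rr) := by
  unfold rotc p3
  simp only [bb6]
  show mkl [pick (bit3 o 0 1 2) (bit3 o 0 1 3) (bit3 o 0 2 3),
    pick (bit3 o 0 1 2) (bit3 o 0 1 4) (bit3 o 0 2 4),
    pick (bit3 o 0 1 3) (bit3 o 0 1 4) (bit3 o 0 3 4),
    pick (bit3 o 0 1 2) (bit3 o 0 1 5) (bit3 o 0 2 5),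
    pick (bit3 o 0 1 3) (bit3 o 0 1 5) (bit3 o 0 3 5),
    pick (bit3 o 0 1 4) (bit3 o 0 1 5) (bit3 o 0 4 5),
    bit3 o 0 1 2,
    bit3 o 0 1 3,
    bit3 o 0 1 4,
    bit3 o 0 1 5] =
    mkl [bit3 o 1 2 3, bit3 o 1 2 4, bit3 o 1 3 4, bit3 o 1 2 5, bit3 o 1 3 5, bit3 o 1 4 5, bit3 o 1 2 0, bit3 o 1 3 0, bit3 o 1 4 0, bit3 o 1 5 0]
  rw [pick_bit ho 0 1 2 3 (by decide) (by decide) (by decide) (by decide) (by decide) (by decide),
    pick_bit ho 0 1 2 4 (by decide) (by decide) (by decide) (by decide) (by decide) (by decide),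
    pick_bit ho 0 1 3 4 (by decide) (by decide) (by decide) (by decide) (by decide) (by decide),
    pick_bit ho 0 1 2 5 (by decide) (by decide) (by decide) (by decide) (by decide) (by decide),
    pick_bit ho 0 1 3 5 (by decide) (by decide) (by decide) (by decide) (by decide) (by decide),
    pick_bit ho 0 1 4 5 (by decide) (by decide) (by decide) (by decide) (by decide) (by decide)]
  have e1 : bit3 o 1 2 0 = bit3 o 0 1 2 := by unfold bit3; rw [ho.rot 0 1 2]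
  have e2 : bit3 o 1 3 0 = bit3 o 0 1 3 := by unfold bit3; rw [ho.rot 0 1 3]
  have e3 : bit3 o 1 4 0 = bit3 o 0 1 4 := by unfold bit3; rw [ho.rot 0 1 4]
  have e4 : bit3 o 1 5 0 = bit3 o 0 1 5 := by unfold bit3; rw [ho.rot 0 1 5]
  rw [e1, e2, e3, e4]

theorem fc0_code {o : Fin 7 → Fin 7 → Fin 7 → ℤ} (ho : IsO o) :
    fc0 (code7 o) = code6 (res o (Fin.succAbove 0)) := by
  unfold fc0 p3
  simp only [bb7]
  show mkl [pick (bit3 o 0 1 2) (bit3 o 0 1 3) (bit3 o 0 2 3),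
    pick (bit3 o 0 1 2) (bit3 o 0 1 4) (bit3 o 0 2 4),
    pick (bit3 o 0 1 3) (bit3 o 0 1 4) (bit3 o 0 3 4),
    pick (bit3 o 0 1 2) (bit3 o 0 1 5) (bit3 o 0 2 5),
    pick (bit3 o 0 1 3) (bit3 o 0 1 5) (bit3 o 0 3 5),
    pick (bit3 o 0 1 4) (bit3 o 0 1 5) (bit3 o 0 4 5),
    pick (bit3 o 0 1 2) (bit3 o 0 1 6) (bit3 o 0 2 6),
    pick (bit3 o 0 1 3) (bit3 o 0 1 6) (bit3 o 0 3 6),
    pick (bit3 o 0 1 4) (bit3 o 0 1 6) (bit3 o 0 4 6),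
    pick (bit3 o 0 1 5) (bit3 o 0 1 6) (bit3 o 0 5 6)] =
    mkl [bit3 o 1 2 3, bit3 o 1 2 4, bit3 o 1 3 4, bit3 o 1 2 5, bit3 o 1 3 5, bit3 o 1 4 5, bit3 o 1 2 6, bit3 o 1 3 6, bit3 o 1 4 6, bit3 o 1 5 6]
  rw [pick_bit ho 0 1 2 3 (by decide) (by decide) (by decide) (by decide) (by decide) (by decide),
    pick_bit ho 0 1 2 4 (by decide) (by decide) (by decide) (by decide) (by decide) (by decide),
    pick_bit ho 0 1 3 4 (by decide) (by decide) (by decide) (by decide) (by decide) (by decide),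
    pick_bit ho 0 1 2 5 (by decide) (by decide) (by decide) (by decide) (by decide) (by decide),
    pick_bit ho 0 1 3 5 (by decide) (by decide) (by decide) (by decide) (by decide) (by decide),
    pick_bit ho 0 1 4 5 (by decide) (by decide) (by decide) (by decide) (by decide) (by decide),
    pick_bit ho 0 1 2 6 (by decide) (by decide) (by decide) (by decide) (by decide) (by decide),
    pick_bit ho 0 1 3 6 (by decide) (by decide) (by decide) (by decide) (by decide) (by decide),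
    pick_bit ho 0 1 4 6 (by decide) (by decide) (by decide) (by decide) (by decide) (by decide),
    pick_bit ho 0 1 5 6 (by decide) (by decide) (by decide) (by decide) (by decide) (by decide)]

theorem fc1_code {o : Fin 7 → Fin 7 → Fin 7 → ℤ} (ho : IsO o) :
    fc1 (code7 o) = code6 (res o (Fin.succAbove 1)) := by
  unfold fc1
  simp only [bb7]
  rfl

theorem fc2_code {o : Fin 7 → Fin 7 → Fin 7 → ℤ} (ho : IsO o) :
    fc2 (code7 o) = code6 (res o (Fin.succAbove 2)) := by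
  unfold fc2
  simp only [bb7]
  rfl

theorem fc3_code {o : Fin 7 → Fin 7 → Fin 7 → ℤ} (ho : IsO o) :
    fc3 (code7 o) = code6 (res o (Fin.succAbove 3)) := by
  unfold fc3
  simp only [bb7]
  rfl

theorem fc4_code {o : Fin 7 → Fin 7 → Fin 7 → ℤ} (ho : IsO o) :
    fc4 (code7 o) = code6 (res o (Fin.succAbove 4)) := by
  unfold fc4
  simp only [bb7]
  rfl

theorem fc5_code {o : Fin 7 → Fin 7 → Fin 7 → ℤ} (ho : IsO o) :
    fc5 (code7 o) = code6 (res o (Fin.succAbove 5)) := by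
  unfold fc5
  simp only [bb7]
  rfl

theorem fc6_code {o : Fin 7 → Fin 7 → Fin 7 → ℤ} (ho : IsO o) :
    fc6 (code7 o) = code6 (res o (Fin.succAbove 6)) := by
  unfold fc6
  simp only [bb7]
  rfl

theorem exists_rec {o : Fin 7 → Fin 7 → Fin 7 → ℤ} (ho : IsO o) : ∃ y ∈ Y, y.c = code7 o := by
  have h6 := ho.res (Fin.succAbove_right_injective (p := (6 : Fin 7)))
  have hc : code7 o = code6 (res o (Fin.succAbove 6)) +
      1024 * mkl [bit3 o 0 1 6, bit3 o 0 2 6, bit3 o 0 3 6, bit3 o 0 4 6, bit3 o 0 5 6] :=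
    bb_add (l6 (res o (Fin.succAbove 6))) [bit3 o 0 1 6, bit3 o 0 2 6, bit3 o 0 3 6,
      bit3 o 0 4 6, bit3 o 0 5 6]
  rw [hc]
  refine code7_ok (code6_lt _) ?_ (vld6 h6) ?_
  · refine mkl_lt [bit3 o 0 1 6, bit3 o 0 2 6, bit3 o 0 3 6, bit3 o 0 4 6, bit3 o 0 5 6] ?_
    intro b hb
    simp only [List.mem_cons, List.not_mem_nil, or_false] at hb
    rcases hb with rfl | rfl | rfl | rfl | rfl <;> exact bit3_le _ _ _ _
  · rw [← hc]
    exact vld7 ho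

/-- the cochain on pairs of orders, first order standard -/
def bet (i j : ℕ) : ℤ := (sA (row i) j : ℤ) - sB (row i) j

/-- the volume form for the standard first order -/
def Dx (p q : Fin 7 → Fin 7 → Fin 7 → ℤ) : ℤ :=
  (p 0 3 4 - p 0 3 5 + p 0 4 5 + p 0 3 6 - p 0 4 6 + p 0 5 6) * q 0 1 2 +
  (-p 0 2 4 + p 0 2 5 - p 0 4 5 - p 0 2 6 + p 0 4 6 - p 0 5 6) * q 0 1 3 +
  (p 0 1 4 - p 0 1 5 + p 0 4 5 + p 0 1 6 - p 0 4 6 + p 0 5 6) * q 0 2 3 +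
  (p 0 2 3 - p 0 2 5 + p 0 3 5 + p 0 2 6 - p 0 3 6 + p 0 5 6) * q 0 1 4 +
  (-p 0 1 3 + p 0 1 5 - p 0 3 5 - p 0 1 6 + p 0 3 6 - p 0 5 6) * q 0 2 4 +
  (p 0 1 2 - p 0 1 5 + p 0 2 5 + p 0 1 6 - p 0 2 6 + p 0 5 6) * q 0 3 4 +
  (-p 0 2 3 + p 0 2 4 - p 0 3 4 - p 0 2 6 + p 0 3 6 - p 0 4 6) * q 0 1 5 +
  (p 0 1 3 - p 0 1 4 + p 0 3 4 + p 0 1 6 - p 0 3 6 + p 0 4 6) * q 0 2 5 +
  (-p 0 1 2 + p 0 1 4 - p 0 2 4 - p 0 1 6 + p 0 2 6 - p 0 4 6) * q 0 3 5 +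
  (p 0 1 2 - p 0 1 3 + p 0 2 3 + p 0 1 6 - p 0 2 6 + p 0 3 6) * q 0 4 5 +
  (p 0 2 3 - p 0 2 4 + p 0 3 4 + p 0 2 5 - p 0 3 5 + p 0 4 5) * q 0 1 6 +
  (-p 0 1 3 + p 0 1 4 - p 0 3 4 - p 0 1 5 + p 0 3 5 - p 0 4 5) * q 0 2 6 +
  (p 0 1 2 - p 0 1 4 + p 0 2 4 + p 0 1 5 - p 0 2 5 + p 0 4 5) * q 0 3 6 +
  (-p 0 1 2 + p 0 1 3 - p 0 2 3 - p 0 1 5 + p 0 2 5 - p 0 3 5) * q 0 4 6 +
  (p 0 1 2 - p 0 1 3 + p 0 2 3 + p 0 1 4 - p 0 2 4 + p 0 3 4) * q 0 5 6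

theorem term_id {u v S Q : ℤ} (hu : 2 * u = 6 + S) (hv : 2 * v = 1 + Q) :
    84 * (u * v) - 252 * v - 42 * u + 126 = 21 * (S * Q) := by
  have hS : S = 2 * u - 6 := by linarith
  have hQ : Q = 2 * v - 1 := by linarith
  rw [hS, hQ]
  ring

/-- a bit of the code of the second order -/
theorem bz_two {q : Fin 7 → Fin 7 → Fin 7 → ℤ} {y : Rec} (hy : y.c = code7 q)
    (z : ℕ) : bz z y = (l7 q).getD z 0 := by
  have h : bz z y = bb y.c z := rfl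
  rw [h, hy, bb7]

theorem one_sub_bit {m : ℕ} {o : Fin m → Fin m → Fin m → ℤ} (ho : IsO o) {a b c : Fin m}
    (hab : a ≠ b) (hbc : b ≠ c) (hac : a ≠ c) : 2 * (((1 - bit3 o a b c : ℕ)) : ℤ) = 1 - o a b c := by
  have h1 := bit3_two ho hab hbc hac
  have h2 := bit3_le o a b c
  omega

theorem comb15 (u0 u1 u2 u3 u4 u5 u6 u7 u8 u9 u10 u11 u12 u13 u14 : ℕ) (v0 v1 v2 v3 v4 v5 v6 v7 v8 v9 v10 v11 v12 v13 v14 : ℕ) (t0 t1 t2 t3 t4 t5 t6 t7 t8 t9 t10 t11 t12 t13 t14 : ℤ)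
    (E0 : 84 * ((u0 : ℤ) * v0) - 252 * v0 - 42 * u0 + 126 = 21 * t0)
    (E1 : 84 * ((u1 : ℤ) * v1) - 252 * v1 - 42 * u1 + 126 = 21 * t1)
    (E2 : 84 * ((u2 : ℤ) * v2) - 252 * v2 - 42 * u2 + 126 = 21 * t2)
    (E3 : 84 * ((u3 : ℤ) * v3) - 252 * v3 - 42 * u3 + 126 = 21 * t3)
    (E4 : 84 * ((u4 : ℤ) * v4) - 252 * v4 - 42 * u4 + 126 = 21 * t4)
    (E5 : 84 * ((u5 : ℤ) * v5) - 252 * v5 - 42 * u5 + 126 = 21 * t5)
    (E6 : 84 * ((u6 : ℤ) * v6) - 252 * v6 - 42 * u6 + 126 = 21 * t6)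
    (E7 : 84 * ((u7 : ℤ) * v7) - 252 * v7 - 42 * u7 + 126 = 21 * t7)
    (E8 : 84 * ((u8 : ℤ) * v8) - 252 * v8 - 42 * u8 + 126 = 21 * t8)
    (E9 : 84 * ((u9 : ℤ) * v9) - 252 * v9 - 42 * u9 + 126 = 21 * t9)
    (E10 : 84 * ((u10 : ℤ) * v10) - 252 * v10 - 42 * u10 + 126 = 21 * t10)
    (E11 : 84 * ((u11 : ℤ) * v11) - 252 * v11 - 42 * u11 + 126 = 21 * t11)
    (E12 : 84 * ((u12 : ℤ) * v12) - 252 * v12 - 42 * u12 + 126 = 21 * t12)
    (E13 : 84 * ((u13 : ℤ) * v13) - 252 * v13 - 42 * u13 + 126 = 21 * t13)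
    (E14 : 84 * ((u14 : ℤ) * v14) - 252 * v14 - 42 * u14 + 126 = 21 * t14) :
    84 * (dot [u0, u1, u2, u3, u4, u5, u6, u7, u8, u9, u10, u11, u12, u13, u14] [v0, v1, v2, v3, v4, v5, v6, v7, v8, v9, v10, v11, v12, v13, v14] : ℤ) - 252 * (sm [v0, v1, v2, v3, v4, v5, v6, v7, v8, v9, v10, v11, v12, v13, v14] : ℤ) - 42 * (sm [u0, u1, u2, u3, u4, u5, u6, u7, u8, u9, u10, u11, u12, u13, u14] : ℤ) + 1890 = 21 * (t0 + t1 + t2 + t3 + t4 + t5 + t6 + t7 + t8 + t9 + t10 + t11 + t12 + t13 + t14) := by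
  have h1 : dot [u0, u1, u2, u3, u4, u5, u6, u7, u8, u9, u10, u11, u12, u13, u14] [v0, v1, v2, v3, v4, v5, v6, v7, v8, v9, v10, v11, v12, v13, v14] = u0 * v0 + (u1 * v1 + (u2 * v2 + (u3 * v3 + (u4 * v4 + (u5 * v5 + (u6 * v6 + (u7 * v7 + (u8 * v8 + (u9 * v9 + (u10 * v10 + (u11 * v11 + (u12 * v12 + (u13 * v13 + (u14 * v14 + 0)))))))))))))) := rfl
  have h2 : sm [v0, v1, v2, v3, v4, v5, v6, v7, v8, v9, v10, v11, v12, v13, v14] = v0 + (v1 + (v2 + (v3 + (v4 + (v5 + (v6 + (v7 + (v8 + (v9 + (v10 + (v11 + (v12 + (v13 + (v14 + 0)))))))))))))) := rfl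
  have h3 : sm [u0, u1, u2, u3, u4, u5, u6, u7, u8, u9, u10, u11, u12, u13, u14] = u0 + (u1 + (u2 + (u3 + (u4 + (u5 + (u6 + (u7 + (u8 + (u9 + (u10 + (u11 + (u12 + (u13 + (u14 + 0)))))))))))))) := rfl
  rw [h1, h2, h3]
  push_cast
  linarith

theorem vol_id {p q : Fin 7 → Fin 7 → Fin 7 → ℤ} (hp : IsO p) (hq : IsO q) {x y : Rec}
    (hx : x.n = nvals (code7 p) KL) (hy : y.c = code7 q) :
    84 * (dot x.n (bl y) : ℤ) - 252 * (sm (bl y) : ℤ) - 42 * (sm x.n : ℤ) + 1890 = 21 * Dx p q := by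
  have P12 : 2 * (bit3 p 0 1 2 : ℤ) = 1 + p 0 1 2 := bit3_two hp (by decide) (by decide) (by decide)
  have M12 : 2 * ((1 - bit3 p 0 1 2 : ℕ) : ℤ) = 1 - p 0 1 2 := one_sub_bit hp (by decide) (by decide) (by decide)
  have P13 : 2 * (bit3 p 0 1 3 : ℤ) = 1 + p 0 1 3 := bit3_two hp (by decide) (by decide) (by decide)
  have M13 : 2 * ((1 - bit3 p 0 1 3 : ℕ) : ℤ) = 1 - p 0 1 3 := one_sub_bit hp (by decide) (by decide) (by decide)
  have P23 : 2 * (bit3 p 0 2 3 : ℤ) = 1 + p 0 2 3 := bit3_two hp (by decide) (by decide) (by decide)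
  have M23 : 2 * ((1 - bit3 p 0 2 3 : ℕ) : ℤ) = 1 - p 0 2 3 := one_sub_bit hp (by decide) (by decide) (by decide)
  have P14 : 2 * (bit3 p 0 1 4 : ℤ) = 1 + p 0 1 4 := bit3_two hp (by decide) (by decide) (by decide)
  have M14 : 2 * ((1 - bit3 p 0 1 4 : ℕ) : ℤ) = 1 - p 0 1 4 := one_sub_bit hp (by decide) (by decide) (by decide)
  have P24 : 2 * (bit3 p 0 2 4 : ℤ) = 1 + p 0 2 4 := bit3_two hp (by decide) (by decide) (by decide)
  have M24 : 2 * ((1 - bit3 p 0 2 4 : ℕ) : ℤ) = 1 - p 0 2 4 := one_sub_bit hp (by decide) (by decide) (by decide)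
  have P34 : 2 * (bit3 p 0 3 4 : ℤ) = 1 + p 0 3 4 := bit3_two hp (by decide) (by decide) (by decide)
  have M34 : 2 * ((1 - bit3 p 0 3 4 : ℕ) : ℤ) = 1 - p 0 3 4 := one_sub_bit hp (by decide) (by decide) (by decide)
  have P15 : 2 * (bit3 p 0 1 5 : ℤ) = 1 + p 0 1 5 := bit3_two hp (by decide) (by decide) (by decide)
  have M15 : 2 * ((1 - bit3 p 0 1 5 : ℕ) : ℤ) = 1 - p 0 1 5 := one_sub_bit hp (by decide) (by decide) (by decide)
  have P25 : 2 * (bit3 p 0 2 5 : ℤ) = 1 + p 0 2 5 := bit3_two hp (by decide) (by decide) (by decide)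
  have M25 : 2 * ((1 - bit3 p 0 2 5 : ℕ) : ℤ) = 1 - p 0 2 5 := one_sub_bit hp (by decide) (by decide) (by decide)
  have P35 : 2 * (bit3 p 0 3 5 : ℤ) = 1 + p 0 3 5 := bit3_two hp (by decide) (by decide) (by decide)
  have M35 : 2 * ((1 - bit3 p 0 3 5 : ℕ) : ℤ) = 1 - p 0 3 5 := one_sub_bit hp (by decide) (by decide) (by decide)
  have P45 : 2 * (bit3 p 0 4 5 : ℤ) = 1 + p 0 4 5 := bit3_two hp (by decide) (by decide) (by decide)
  have M45 : 2 * ((1 - bit3 p 0 4 5 : ℕ) : ℤ) = 1 - p 0 4 5 := one_sub_bit hp (by decide) (by decide) (by decide)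
  have P16 : 2 * (bit3 p 0 1 6 : ℤ) = 1 + p 0 1 6 := bit3_two hp (by decide) (by decide) (by decide)
  have M16 : 2 * ((1 - bit3 p 0 1 6 : ℕ) : ℤ) = 1 - p 0 1 6 := one_sub_bit hp (by decide) (by decide) (by decide)
  have P26 : 2 * (bit3 p 0 2 6 : ℤ) = 1 + p 0 2 6 := bit3_two hp (by decide) (by decide) (by decide)
  have M26 : 2 * ((1 - bit3 p 0 2 6 : ℕ) : ℤ) = 1 - p 0 2 6 := one_sub_bit hp (by decide) (by decide) (by decide)
  have P36 : 2 * (bit3 p 0 3 6 : ℤ) = 1 + p 0 3 6 := bit3_two hp (by decide) (by decide) (by decide)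
  have M36 : 2 * ((1 - bit3 p 0 3 6 : ℕ) : ℤ) = 1 - p 0 3 6 := one_sub_bit hp (by decide) (by decide) (by decide)
  have P46 : 2 * (bit3 p 0 4 6 : ℤ) = 1 + p 0 4 6 := bit3_two hp (by decide) (by decide) (by decide)
  have M46 : 2 * ((1 - bit3 p 0 4 6 : ℕ) : ℤ) = 1 - p 0 4 6 := one_sub_bit hp (by decide) (by decide) (by decide)
  have P56 : 2 * (bit3 p 0 5 6 : ℤ) = 1 + p 0 5 6 := bit3_two hp (by decide) (by decide) (by decide)
  have M56 : 2 * ((1 - bit3 p 0 5 6 : ℕ) : ℤ) = 1 - p 0 5 6 := one_sub_bit hp (by decide) (by decide) (by decide)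
  have hn : x.n = [bit3 p 0 3 4 + ((1 - bit3 p 0 3 5) + (bit3 p 0 4 5 + (bit3 p 0 3 6 + ((1 - bit3 p 0 4 6) + (bit3 p 0 5 6 + 0))))),
    (1 - bit3 p 0 2 4) + (bit3 p 0 2 5 + ((1 - bit3 p 0 4 5) + ((1 - bit3 p 0 2 6) + (bit3 p 0 4 6 + ((1 - bit3 p 0 5 6) + 0))))),
    bit3 p 0 1 4 + ((1 - bit3 p 0 1 5) + (bit3 p 0 4 5 + (bit3 p 0 1 6 + ((1 - bit3 p 0 4 6) + (bit3 p 0 5 6 + 0))))),
    bit3 p 0 2 3 + ((1 - bit3 p 0 2 5) + (bit3 p 0 3 5 + (bit3 p 0 2 6 + ((1 - bit3 p 0 3 6) + (bit3 p 0 5 6 + 0))))),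
    (1 - bit3 p 0 1 3) + (bit3 p 0 1 5 + ((1 - bit3 p 0 3 5) + ((1 - bit3 p 0 1 6) + (bit3 p 0 3 6 + ((1 - bit3 p 0 5 6) + 0))))),
    bit3 p 0 1 2 + ((1 - bit3 p 0 1 5) + (bit3 p 0 2 5 + (bit3 p 0 1 6 + ((1 - bit3 p 0 2 6) + (bit3 p 0 5 6 + 0))))),
    (1 - bit3 p 0 2 3) + (bit3 p 0 2 4 + ((1 - bit3 p 0 3 4) + ((1 - bit3 p 0 2 6) + (bit3 p 0 3 6 + ((1 - bit3 p 0 4 6) + 0))))),
    bit3 p 0 1 3 + ((1 - bit3 p 0 1 4) + (bit3 p 0 3 4 + (bit3 p 0 1 6 + ((1 - bit3 p 0 3 6) + (bit3 p 0 4 6 + 0))))),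
    (1 - bit3 p 0 1 2) + (bit3 p 0 1 4 + ((1 - bit3 p 0 2 4) + ((1 - bit3 p 0 1 6) + (bit3 p 0 2 6 + ((1 - bit3 p 0 4 6) + 0))))),
    bit3 p 0 1 2 + ((1 - bit3 p 0 1 3) + (bit3 p 0 2 3 + (bit3 p 0 1 6 + ((1 - bit3 p 0 2 6) + (bit3 p 0 3 6 + 0))))),
    bit3 p 0 2 3 + ((1 - bit3 p 0 2 4) + (bit3 p 0 3 4 + (bit3 p 0 2 5 + ((1 - bit3 p 0 3 5) + (bit3 p 0 4 5 + 0))))),
    (1 - bit3 p 0 1 3) + (bit3 p 0 1 4 + ((1 - bit3 p 0 3 4) + ((1 - bit3 p 0 1 5) + (bit3 p 0 3 5 + ((1 - bit3 p 0 4 5) + 0))))),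
    bit3 p 0 1 2 + ((1 - bit3 p 0 1 4) + (bit3 p 0 2 4 + (bit3 p 0 1 5 + ((1 - bit3 p 0 2 5) + (bit3 p 0 4 5 + 0))))),
    (1 - bit3 p 0 1 2) + (bit3 p 0 1 3 + ((1 - bit3 p 0 2 3) + ((1 - bit3 p 0 1 5) + (bit3 p 0 2 5 + ((1 - bit3 p 0 3 5) + 0))))),
    bit3 p 0 1 2 + ((1 - bit3 p 0 1 3) + (bit3 p 0 2 3 + (bit3 p 0 1 4 + ((1 - bit3 p 0 2 4) + (bit3 p 0 3 4 + 0)))))] := by
    rw [hx]
    simp only [nvals, nval, KL, bb7]
    rfl
  have hb : bl y = [bit3 q 0 1 2, bit3 q 0 1 3, bit3 q 0 2 3, bit3 q 0 1 4, bit3 q 0 2 4, bit3 q 0 3 4, bit3 q 0 1 5, bit3 q 0 2 5, bit3 q 0 3 5, bit3 q 0 4 5, bit3 q 0 1 6, bit3 q 0 2 6, bit3 q 0 3 6, bit3 q 0 4 6, bit3 q 0 5 6] := by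
    unfold bl
    simp only [bz_two hy]
    rfl
  rw [hn, hb]
  have E0 := term_id (u := ((bit3 p 0 3 4 + ((1 - bit3 p 0 3 5) + (bit3 p 0 4 5 + (bit3 p 0 3 6 + ((1 - bit3 p 0 4 6) + (bit3 p 0 5 6 + 0))))) : ℕ) : ℤ)) (v := (bit3 q 0 1 2 : ℤ)) (S := p 0 3 4 - p 0 3 5 + p 0 4 5 + p 0 3 6 - p 0 4 6 + p 0 5 6) (Q := q 0 1 2)
    (by push_cast; linarith) (bit3_two hq (by decide) (by decide) (by decide))
  have E1 := term_id (u := (((1 - bit3 p 0 2 4) + (bit3 p 0 2 5 + ((1 - bit3 p 0 4 5) + ((1 - bit3 p 0 2 6) + (bit3 p 0 4 6 + ((1 - bit3 p 0 5 6) + 0))))) : ℕ) : ℤ)) (v := (bit3 q 0 1 3 : ℤ)) (S := -p 0 2 4 + p 0 2 5 - p 0 4 5 - p 0 2 6 + p 0 4 6 - p 0 5 6) (Q := q 0 1 3)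
    (by push_cast; linarith) (bit3_two hq (by decide) (by decide) (by decide))
  have E2 := term_id (u := ((bit3 p 0 1 4 + ((1 - bit3 p 0 1 5) + (bit3 p 0 4 5 + (bit3 p 0 1 6 + ((1 - bit3 p 0 4 6) + (bit3 p 0 5 6 + 0))))) : ℕ) : ℤ)) (v := (bit3 q 0 2 3 : ℤ)) (S := p 0 1 4 - p 0 1 5 + p 0 4 5 + p 0 1 6 - p 0 4 6 + p 0 5 6) (Q := q 0 2 3)
    (by push_cast; linarith) (bit3_two hq (by decide) (by decide) (by decide))
  have E3 := term_id (u := ((bit3 p 0 2 3 + ((1 - bit3 p 0 2 5) + (bit3 p 0 3 5 + (bit3 p 0 2 6 + ((1 - bit3 p 0 3 6) + (bit3 p 0 5 6 + 0))))) : ℕ) : ℤ)) (v := (bit3 q 0 1 4 : ℤ)) (S := p 0 2 3 - p 0 2 5 + p 0 3 5 + p 0 2 6 - p 0 3 6 + p 0 5 6) (Q := q 0 1 4)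
    (by push_cast; linarith) (bit3_two hq (by decide) (by decide) (by decide))
  have E4 := term_id (u := (((1 - bit3 p 0 1 3) + (bit3 p 0 1 5 + ((1 - bit3 p 0 3 5) + ((1 - bit3 p 0 1 6) + (bit3 p 0 3 6 + ((1 - bit3 p 0 5 6) + 0))))) : ℕ) : ℤ)) (v := (bit3 q 0 2 4 : ℤ)) (S := -p 0 1 3 + p 0 1 5 - p 0 3 5 - p 0 1 6 + p 0 3 6 - p 0 5 6) (Q := q 0 2 4)
    (by push_cast; linarith) (bit3_two hq (by decide) (by decide) (by decide))
  have E5 := term_id (u := ((bit3 p 0 1 2 + ((1 - bit3 p 0 1 5) + (bit3 p 0 2 5 + (bit3 p 0 1 6 + ((1 - bit3 p 0 2 6) + (bit3 p 0 5 6 + 0))))) : ℕ) : ℤ)) (v := (bit3 q 0 3 4 : ℤ)) (S := p 0 1 2 - p 0 1 5 + p 0 2 5 + p 0 1 6 - p 0 2 6 + p 0 5 6) (Q := q 0 3 4)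
    (by push_cast; linarith) (bit3_two hq (by decide) (by decide) (by decide))
  have E6 := term_id (u := (((1 - bit3 p 0 2 3) + (bit3 p 0 2 4 + ((1 - bit3 p 0 3 4) + ((1 - bit3 p 0 2 6) + (bit3 p 0 3 6 + ((1 - bit3 p 0 4 6) + 0))))) : ℕ) : ℤ)) (v := (bit3 q 0 1 5 : ℤ)) (S := -p 0 2 3 + p 0 2 4 - p 0 3 4 - p 0 2 6 + p 0 3 6 - p 0 4 6) (Q := q 0 1 5)
    (by push_cast; linarith) (bit3_two hq (by decide) (by decide) (by decide))
  have E7 := term_id (u := ((bit3 p 0 1 3 + ((1 - bit3 p 0 1 4) + (bit3 p 0 3 4 + (bit3 p 0 1 6 + ((1 - bit3 p 0 3 6) + (bit3 p 0 4 6 + 0))))) : ℕ) : ℤ)) (v := (bit3 q 0 2 5 : ℤ)) (S := p 0 1 3 - p 0 1 4 + p 0 3 4 + p 0 1 6 - p 0 3 6 + p 0 4 6) (Q := q 0 2 5)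
    (by push_cast; linarith) (bit3_two hq (by decide) (by decide) (by decide))
  have E8 := term_id (u := (((1 - bit3 p 0 1 2) + (bit3 p 0 1 4 + ((1 - bit3 p 0 2 4) + ((1 - bit3 p 0 1 6) + (bit3 p 0 2 6 + ((1 - bit3 p 0 4 6) + 0))))) : ℕ) : ℤ)) (v := (bit3 q 0 3 5 : ℤ)) (S := -p 0 1 2 + p 0 1 4 - p 0 2 4 - p 0 1 6 + p 0 2 6 - p 0 4 6) (Q := q 0 3 5)
    (by push_cast; linarith) (bit3_two hq (by decide) (by decide) (by decide))
  have E9 := term_id (u := ((bit3 p 0 1 2 + ((1 - bit3 p 0 1 3) + (bit3 p 0 2 3 + (bit3 p 0 1 6 + ((1 - bit3 p 0 2 6) + (bit3 p 0 3 6 + 0))))) : ℕ) : ℤ)) (v := (bit3 q 0 4 5 : ℤ)) (S := p 0 1 2 - p 0 1 3 + p 0 2 3 + p 0 1 6 - p 0 2 6 + p 0 3 6) (Q := q 0 4 5)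
    (by push_cast; linarith) (bit3_two hq (by decide) (by decide) (by decide))
  have E10 := term_id (u := ((bit3 p 0 2 3 + ((1 - bit3 p 0 2 4) + (bit3 p 0 3 4 + (bit3 p 0 2 5 + ((1 - bit3 p 0 3 5) + (bit3 p 0 4 5 + 0))))) : ℕ) : ℤ)) (v := (bit3 q 0 1 6 : ℤ)) (S := p 0 2 3 - p 0 2 4 + p 0 3 4 + p 0 2 5 - p 0 3 5 + p 0 4 5) (Q := q 0 1 6)
    (by push_cast; linarith) (bit3_two hq (by decide) (by decide) (by decide))
  have E11 := term_id (u := (((1 - bit3 p 0 1 3) + (bit3 p 0 1 4 + ((1 - bit3 p 0 3 4) + ((1 - bit3 p 0 1 5) + (bit3 p 0 3 5 + ((1 - bit3 p 0 4 5) + 0))))) : ℕ) : ℤ)) (v := (bit3 q 0 2 6 : ℤ)) (S := -p 0 1 3 + p 0 1 4 - p 0 3 4 - p 0 1 5 + p 0 3 5 - p 0 4 5) (Q := q 0 2 6)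
    (by push_cast; linarith) (bit3_two hq (by decide) (by decide) (by decide))
  have E12 := term_id (u := ((bit3 p 0 1 2 + ((1 - bit3 p 0 1 4) + (bit3 p 0 2 4 + (bit3 p 0 1 5 + ((1 - bit3 p 0 2 5) + (bit3 p 0 4 5 + 0))))) : ℕ) : ℤ)) (v := (bit3 q 0 3 6 : ℤ)) (S := p 0 1 2 - p 0 1 4 + p 0 2 4 + p 0 1 5 - p 0 2 5 + p 0 4 5) (Q := q 0 3 6)
    (by push_cast; linarith) (bit3_two hq (by decide) (by decide) (by decide))
  have E13 := term_id (u := (((1 - bit3 p 0 1 2) + (bit3 p 0 1 3 + ((1 - bit3 p 0 2 3) + ((1 - bit3 p 0 1 5) + (bit3 p 0 2 5 + ((1 - bit3 p 0 3 5) + 0))))) : ℕ) : ℤ)) (v := (bit3 q 0 4 6 : ℤ)) (S := -p 0 1 2 + p 0 1 3 - p 0 2 3 - p 0 1 5 + p 0 2 5 - p 0 3 5) (Q := q 0 4 6)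
    (by push_cast; linarith) (bit3_two hq (by decide) (by decide) (by decide))
  have E14 := term_id (u := ((bit3 p 0 1 2 + ((1 - bit3 p 0 1 3) + (bit3 p 0 2 3 + (bit3 p 0 1 4 + ((1 - bit3 p 0 2 4) + (bit3 p 0 3 4 + 0))))) : ℕ) : ℤ)) (v := (bit3 q 0 5 6 : ℤ)) (S := p 0 1 2 - p 0 1 3 + p 0 2 3 + p 0 1 4 - p 0 2 4 + p 0 3 4) (Q := q 0 5 6)
    (by push_cast; linarith) (bit3_two hq (by decide) (by decide) (by decide))
  exact comb15 _ _ _ _ _ _ _ _ _ _ _ _ _ _ _ _ _ _ _ _ _ _ _ _ _ _ _ _ _ _ _ _ _ _ _ _ _ _ _ _ _ _ _ _ _ E0 E1 E2 E3 E4 E5 E6 E7 E8 E9 E10 E11 E12 E13 E14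

end C3V
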