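import Pool.Agent.H29.C3.Tab

/-!
# The computation of the certificate, packed in numbers (base `65536`)
-/

set_option autoImplicit false
set_option maxRecDepth 100000

namespace C3V

noncomputable section

/-- the `i`-th element -/
def nth {α : Type} (d : α) (l : List α) : ℕ → α :=
  List.rec (motive := fun _ => ℕ → α) (fun _ => d)
    (fun h _ ih i => Nat.rec (motive := fun _ => α) h (fun m _ => ih m) i) l

def row (j : ℕ) : List (ℕ × ℕ × ℕ) := nth [] (nth [] TB (Nat.div j 11)) (Nat.mod j 11)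

def ps (i j : ℕ) : List ℕ := nth [] (nth [] (nth [] PS i) (Nat.div j 11)) (Nat.mod j 11)

def W (i j : ℕ) : ℕ :=
  List.rec (motive := fun _ => ℕ) 0 (fun k _ ih => Nat.add (Nat.pow 2 (Nat.mul 16 k)) ih) (ps i j)

def PA (i j : ℕ) : ℕ :=
  List.rec (motive := fun _ => ℕ) 0 (fun e _ ih => Prod.rec (motive := fun _ => ℕ) (fun j' ab =>
    Prod.rec (motive := fun _ => ℕ) (fun a _ => Nat.add (Nat.mul a (W i j')) ih) ab) e) (row j)

def PB (i j : ℕ) : ℕ :=
  List.rec (motive := fun _ => ℕ) 0 (fun e _ ih => Prod.rec (motive := fun _ => ℕ) (fun j' ab =>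
    Prod.rec (motive := fun _ => ℕ) (fun _ b => Nat.add (Nat.mul b (W i j')) ih) ab) e) (row j)

/-- the packed vector of the values of `g` on a list -/
def pk (g : Rec → ℕ) (l : List Rec) : ℕ :=
  List.rec (motive := fun _ => ℕ) 0 (fun y _ ih => Nat.add (g y) (Nat.mul 65536 ih)) l

def bz (z : ℕ) (y : Rec) : ℕ := Nat.mod (Nat.div y.c (Nat.pow 2 z)) 2

def Z (z : ℕ) : ℕ := pk (bz z) Y

def ZL : List ℕ := [Z 0, Z 1, Z 2, Z 3, Z 4, Z 5, Z 6, Z 7, Z 8, Z 9, Z 10, Z 11, Z 12, Z 13, Z 14]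

def O : ℕ := pk (fun _ => 1) Y

def dot (l : List ℕ) : List ℕ → ℕ :=
  List.rec (motive := fun _ => List ℕ → ℕ) (fun _ => 0) (fun a _ ih m =>
    List.rec (motive := fun _ => ℕ) 0 (fun b t _ => Nat.add (Nat.mul a b) (ih t)) m) l

def sm (l : List ℕ) : ℕ := List.rec (motive := fun _ => ℕ) 0 (fun a _ ih => Nat.add a ih) l

def POP : ℕ := sm ZL

def pL (x : Rec) : ℕ :=
  Rec.rec (motive := fun _ => ℕ) (fun _ n f0 f1 f2 f3 f4 f5 f6 =>
    Nat.add (Nat.mul 84 (dot n ZL)) (Nat.add (PA 0 f0) (Nat.add (PB 1 f1) (Nat.add (PA 2 f2)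
      (Nat.add (PB 3 f3) (Nat.add (PA 4 f4) (Nat.add (PB 5 f5) (Nat.add (PA 6 f6)
        (Nat.mul 2000 O))))))))) x

def pR (x : Rec) : ℕ :=
  Rec.rec (motive := fun _ => ℕ) (fun _ n f0 f1 f2 f3 f4 f5 f6 =>
    Nat.add (Nat.mul 252 POP) (Nat.add (PB 0 f0) (Nat.add (PA 1 f1) (Nat.add (PB 2 f2)
      (Nat.add (PA 3 f3) (Nat.add (PB 4 f4) (Nat.add (PA 5 f5) (Nat.add (PB 6 f6)
        (Nat.mul (Nat.add (Nat.mul 42 (sm n)) 432) O))))))))) x

def HH : ℕ := Nat.mul 32768 O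

def chk (x : Rec) : Bool :=
  Bool.and (Nat.beq (Nat.land (Nat.sub (Nat.add (pR x) HH) (pL x)) HH) HH)
    (Nat.beq (Nat.land (Nat.sub (Nat.add (Nat.add (pL x) (Nat.mul 644 O)) HH) (pR x)) HH) HH)

def allr {α : Type} (p : α → Bool) (l : List α) : Bool :=
  List.rec (motive := fun _ => Bool) true
    (fun y _ ih => Bool.rec (motive := fun _ => Bool) false ih (p y)) l

def U (g : Rec → ℕ) (l : List Rec) : ℕ :=
  List.rec (motive := fun _ => ℕ) 0
    (fun y _ ih => Nat.add (Nat.pow 2 (Nat.mul 11520 (g y))) (Nat.mul 65536 ih)) l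

def MM : ℕ := Nat.pow 2 11520

def uchk (g : Rec → ℕ) (i : ℕ) : Bool :=
  allr (fun j => Nat.beq (Nat.mod (Nat.shiftRight (U g Y) (Nat.mul 11520 j)) MM) (W i j))
    (List.range 120)

end

end C3V
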