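import Pool.Agent.H29.C3.Vdef

/-!
# Packed vectors

`pk g l` is the number with the digits `g y`, `y ∈ l`, in base `65536`.
-/

set_option autoImplicit false
set_option maxRecDepth 100000

namespace C3V

theorem pk_nil (g : Rec → ℕ) : pk g [] = 0 := rfl

theorem pk_cons (g : Rec → ℕ) (y : Rec) (l : List Rec) : pk g (y :: l) = g y + 65536 * pk g l := rfl

theorem pk_add (g h : Rec → ℕ) (l : List Rec) : pk (fun y => g y + h y) l = pk g l + pk h l := by
  induction l with
  | nil => rfl
  | cons y l ih => rw [pk_cons, pk_cons, pk_cons, ih]; ring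

theorem pk_mul (c : ℕ) (g : Rec → ℕ) (l : List Rec) : pk (fun y => c * g y) l = c * pk g l := by
  induction l with
  | nil => rfl
  | cons y l ih => rw [pk_cons, pk_cons, ih]; ring

theorem pk_congr {g h : Rec → ℕ} {l : List Rec} (H : ∀ y ∈ l, g y = h y) : pk g l = pk h l := by
  induction l with
  | nil => rfl
  | cons y l ih =>
    rw [pk_cons, pk_cons, H y (List.mem_cons_self ..), ih fun z hz => H z (List.mem_cons_of_mem _ hz)]

theorem pk_const (c : ℕ) (l : List Rec) : pk (fun _ => c) l = c * pk (fun _ => 1) l := by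
  rw [← pk_mul]
  simp

theorem pk_lt (g : Rec → ℕ) (l : List Rec) (h : ∀ y ∈ l, g y < 65536) :
    pk g l < 65536 ^ l.length := by
  induction l with
  | nil => exact Nat.one_pos
  | cons y l ih =>
    have h1 := h y (List.mem_cons_self ..)
    have h2 := ih fun z hz => h z (List.mem_cons_of_mem _ hz)
    rw [pk_cons, List.length_cons, pow_succ]
    have : pk g l + 1 ≤ 65536 ^ l.length := h2
    nlinarith

/-- comparison of the digits by one `land` -/
theorem land_digit (g : Rec → ℕ) (l : List Rec) (hg : ∀ y ∈ l, g y < 65536)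
    (h : Nat.land (pk g l) (pk (fun _ => 32768) l) = pk (fun _ => 32768) l) :
    ∀ y ∈ l, 32768 ≤ g y := by
  induction l with
  | nil => intro y hy; simp at hy
  | cons y l ih =>
    rw [pk_cons, pk_cons] at h
    have hy := hg y (List.mem_cons_self ..)
    have e16 : (65536 : ℕ) = 2 ^ 16 := by norm_num
    have h' : (g y + 65536 * pk g l) &&& (32768 + 65536 * pk (fun _ => 32768) l)
        = 32768 + 65536 * pk (fun _ => 32768) l := h
    have hmod := congrArg (fun n => n % 2 ^ 16) h'
    have hdiv := congrArg (fun n => n / 2 ^ 16) h'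
    simp only at hmod hdiv
    rw [Nat.and_mod_two_pow] at hmod
    rw [Nat.and_div_two_pow] at hdiv
    have a1 : (g y + 65536 * pk g l) % 2 ^ 16 = g y := by omega
    have a2 : (32768 + 65536 * pk (fun _ => 32768) l) % 2 ^ 16 = 32768 := by omega
    have a3 : (g y + 65536 * pk g l) / 2 ^ 16 = pk g l := by omega
    have a4 : (32768 + 65536 * pk (fun _ => 32768) l) / 2 ^ 16 = pk (fun _ => 32768) l := by omega
    rw [a1, a2] at hmod
    rw [a3, a4] at hdiv
    intro z hz
    rcases List.mem_cons.1 hz with rfl | hz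
    · have h5 : g z &&& 32768 ≤ g z := Nat.and_le_left
      omega
    · exact ih (fun z hz => hg z (List.mem_cons_of_mem _ hz)) hdiv z hz

theorem le_of_land {f g : Rec → ℕ} {l : List Rec} (hf : ∀ y ∈ l, f y ≤ 32768)
    (hg : ∀ y ∈ l, g y < 32768)
    (h : Nat.land (pk g l + 32768 * pk (fun _ => 1) l - pk f l) (32768 * pk (fun _ => 1) l)
      = 32768 * pk (fun _ => 1) l) :
    ∀ y ∈ l, f y ≤ g y := by
  have e : pk g l + 32768 * pk (fun _ => 1) l - pk f l = pk (fun y => g y + 32768 - f y) l := by
    have h1 : pk (fun y => g y + 32768 - f y) l + pk f l = pk g l + 32768 * pk (fun _ => 1) l := by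
      rw [← pk_add, ← pk_const, ← pk_add]
      apply pk_congr
      intro y hy
      have := hf y hy
      show g y + 32768 - f y + f y = g y + 32768
      omega
    omega
  rw [e, ← pk_const] at h
  intro y hy
  have h1 := land_digit _ l (fun y hy => by
    have := hg y hy
    show g y + 32768 - f y < 65536
    omega) h y hy
  have h2 := hf y hy
  have h3 : 32768 ≤ g y + 32768 - f y := h1
  omega

/-! ### the transposition -/

/-- the transposed vector, general shift -/
def Ug (s : ℕ) (g : Rec → ℕ) : List Rec → ℕ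
  | [] => 0
  | y :: l => 2 ^ (s * g y) + 65536 * Ug s g l

theorem U_eq_Ug (g : Rec → ℕ) (l : List Rec) : U g l = Ug 11520 g l := by
  induction l with
  | nil => rfl
  | cons y l ih =>
    have h1 : U g (y :: l) = 2 ^ (11520 * g y) + 65536 * U g l := rfl
    rw [h1, ih]
    rfl

theorem Ug_eq (s n : ℕ) (g : Rec → ℕ) (l : List Rec) (h : ∀ y ∈ l, g y < n) :
    Ug s g l = ∑ j ∈ Finset.range n, 2 ^ (s * j) * pk (fun y => if g y = j then 1 else 0) l := by
  induction l with
  | nil =>
    symm
    apply Finset.sum_eq_zero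
    intro j _
    rw [pk_nil, mul_zero]
  | cons y l ih =>
    have h1 : Ug s g (y :: l) = 2 ^ (s * g y) + 65536 * Ug s g l := rfl
    rw [h1, ih fun z hz => h z (List.mem_cons_of_mem _ hz)]
    have hy := h y (List.mem_cons_self ..)
    simp only [pk_cons, mul_add, Finset.sum_add_distrib]
    have e1 : ∑ j ∈ Finset.range n, 2 ^ (s * j) * (if g y = j then 1 else 0) = 2 ^ (s * g y) := by
      rw [Finset.sum_eq_single (g y)]
      · rw [if_pos rfl, mul_one]
      · intro j _ hj
        rw [if_neg (Ne.symm hj), mul_zero]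
      · intro hn
        exact absurd (Finset.mem_range.2 hy) hn
    rw [e1, Finset.mul_sum]
    congr 1
    refine Finset.sum_congr rfl fun j _ => ?_
    ring

/-- the digits of a sum in a large base -/
theorem dig (w : ℕ → ℕ) (s : ℕ) (hw : ∀ j, w j < 2 ^ s) (n j : ℕ) (hj : j < n) :
    ((∑ i ∈ Finset.range n, 2 ^ (s * i) * w i) >>> (s * j)) % 2 ^ s = w j := by
  have key : ∀ m, ∑ i ∈ Finset.range m, 2 ^ (s * i) * w i < 2 ^ (s * m) := by
    intro m
    induction m with
    | zero => simp
    | succ m ih =>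
      rw [Finset.sum_range_succ]
      have h1 : w m + 1 ≤ 2 ^ s := hw m
      have h2 : (2 : ℕ) ^ (s * (m + 1)) = 2 ^ (s * m) * 2 ^ s := by rw [mul_add, pow_add, mul_one]
      rw [h2]
      nlinarith [Nat.two_pow_pos (s * m)]
  have h3 : ∑ i ∈ Finset.range n, 2 ^ (s * i) * w i
      = (∑ i ∈ Finset.range j, 2 ^ (s * i) * w i) + 2 ^ (s * j) * (w j + 2 ^ s *
        ∑ i ∈ Finset.range (n - (j + 1)), 2 ^ (s * i) * w (j + 1 + i)) := by
    have h4 : n = j + 1 + (n - (j + 1)) := by omega
    conv_lhs => rw [h4]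
    rw [Finset.sum_range_add, Finset.sum_range_succ, mul_add, Finset.mul_sum, Finset.mul_sum, add_assoc]
    congr 2
    refine Finset.sum_congr rfl fun i _ => ?_
    rw [mul_add, mul_add, pow_add, pow_add, mul_one]
    ring
  rw [h3, Nat.shiftRight_eq_div_pow, Nat.add_mul_div_left _ _ (Nat.two_pow_pos _),
    Nat.div_eq_of_lt (key j), zero_add, Nat.add_mul_mod_self_left, Nat.mod_eq_of_lt (hw j)]

end C3V
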